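import Pool.Agent.Run7.h963.SX.Ext
import Pool.Agent.Run7.h508.SQ.Rel

/-!
# The relations for the leading coefficients and Stark's numbers
-/

set_option autoImplicit false
set_option linter.unusedSectionVars false

open NumberField Pool.Agent.K4H74 Pool.Agent.K4H74.SK Pool.Agent.K4H34.AL
open Pool.Agent.K4H74.ST (ArtinInvariant)
open Pool.Agent.Run7.h508.SQ (IsSN rel_full)

namespace Run7.h963.SX

lemma leading_ne {c : Pair → ℂ} (hc : IsLeading c) {x : Pair} (hx : IsChr x.2) : c x ≠ 0 := by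
  rw [← pval_lead hc hx]
  exact Units.ne_zero _

lemma alg_rel {M : Type} [CommGroup M] {a b b' d : M} {ε : ℤ} (h : a * b = b' * d ^ ε) :
    a = b' ^ (1 : ℤ) * b ^ (-1 : ℤ) * d ^ ε := by
  rw [zpow_one, zpow_neg, zpow_one, mul_assoc, mul_comm b⁻¹, ← mul_assoc, ← h, mul_inv_cancel_right]

lemma pv_rel {M : Type} [CommGroup M] (B : ArtinInvariant M) {x y y' u : Pair} {ε : ℤ}
    (h : B.val x.1.K x.1.L x.2 * B.val y.1.K y.1.L y.2 =
      B.val y'.1.K y'.1.L y'.2 * B.val u.1.K u.1.L u.2 ^ ε) :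
    pval B x ^ 1 = ∏ i : Fin 3, pval B ((![y', y, u] : Fin 3 → Pair) i) ^
      (![1, -1, ε] : Fin 3 → ℤ) i := by
  rw [Fin.prod_univ_three, pow_one]
  exact alg_rel h

lemma quot_rel {M : Type} [CommGroup M] {d e b b' x y : M} (h1 : d * b = b' * x)
    (h2 : e * b = b' * y) : d * y = e * x := by
  have h : d * y * b = e * x * b := by
    rw [mul_right_comm, h1, mul_right_comm e, h2, mul_right_comm]
  exact mul_right_cancel h

/-- from the values of all the invariants to the relations -/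
theorem rel_num {c : Pair → ℂ} (hc : IsLeading c) {x y y' u : Pair} (hx : IsChr x.2)
    (hy : IsChr y.2) (hy' : IsChr y'.2) (hu : IsChr u.2) (ry : ∀ g, ∃ q : ℚ, y.2 g = q)
    (ry' : ∀ g, ∃ q : ℚ, y'.2 g = q) {ε : ℤ}
    (h : ∀ (M : Type) [CommGroup M] (B : ArtinInvariant M),
      B.val x.1.K x.1.L x.2 * B.val y.1.K y.1.L y.2 =
        B.val y'.1.K y'.1.L y'.2 * B.val u.1.K u.1.L u.2 ^ ε) :
    c x * c y = c y' * c u ^ ε ∧
    ∀ a b b' w : ℂ, IsSN c x a → IsSN c y b → IsSN c y' b' → IsSN c u w →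
      ∃ α : ℂ, α ∈ IntermediateField.adjoin ℚ (Set.range x.2 ∪ Set.range u.2) ∧
        a * b = α * b' * w ^ ε := by
  have hX : ∀ i : Fin 3, IsChr ((![y', y, u] : Fin 3 → Pair) i).2 := by
    intro i
    fin_cases i
    · exact hy'
    · exact hy
    · exact hu
  have h1 : pval (allInv hc) x ^ 1 = ∏ i : Fin 3, pval (allInv hc) ((![y', y, u] : Fin 3 → Pair) i) ^
      (![1, -1, ε] : Fin 3 → ℤ) i := pv_rel (allInv hc) (h _ (allInv hc))
  obtain ⟨-, r2, -, r4⟩ := rel_full hc hx hX h1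
  rw [Fin.prod_univ_three, pow_one] at r2
  have hc0 : c y ≠ 0 := leading_ne hc hy
  refine ⟨?_, ?_⟩
  · change c x = c y' ^ (1 : ℤ) * c y ^ (-1 : ℤ) * c u ^ ε at r2
    rw [r2, zpow_one, zpow_neg, zpow_one]
    field_simp
  · intro a b b' w ha hb hb' hw
    have hb0 : b ≠ 0 := by
      obtain ⟨Λ, hΛ, hA⟩ := hb
      exact isA_ne hc hy hΛ hA
    obtain ⟨α, hα, e⟩ := r4 a ![b', b, w] ha (by
      intro i
      fin_cases i
      · exact hb'
      · exact hb
      · exact hw)
    refine ⟨α, ?_, ?_⟩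
    · refine (IntermediateField.adjoin_le_iff.mpr ?_) hα
      rintro v (hv | hv)
      · exact IntermediateField.subset_adjoin _ _ (Or.inl hv)
      · obtain ⟨i, hi⟩ := Set.mem_iUnion.mp hv
        fin_cases i
        · obtain ⟨g, rfl⟩ := hi
          obtain ⟨q, hq⟩ := ry' g
          change y'.2 g ∈ _
          rw [hq]
          exact SubfieldClass.ratCast_mem _ q
        · obtain ⟨g, rfl⟩ := hi
          obtain ⟨q, hq⟩ := ry g
          change y.2 g ∈ _
          rw [hq]
          exact SubfieldClass.ratCast_mem _ q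
        · exact IntermediateField.subset_adjoin _ _ (Or.inr hi)
    · rw [pow_one, Fin.prod_univ_three] at e
      change a = α * (b' ^ (1 : ℤ) * b ^ (-1 : ℤ) * w ^ ε) at e
      rw [e, zpow_one, zpow_neg, zpow_one]
      field_simp

end Run7.h963.SX
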