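import Mathlib

/-!
# Groups in which the centralizers of the irrational elements are abelian: definitions
-/

set_option autoImplicit false

namespace Run7.h963.SX

/-- `g` is a rational element: it is conjugate to its powers with exponents prime to its order. -/
def RatEl {G : Type} [Group G] (g : G) : Prop :=
  ∀ k : ℕ, k.Coprime (orderOf g) → ∃ x : G, x * g * x⁻¹ = g ^ k

/-- `T` is abelian, and it contains the centralizers of all its elements, with the exception of `1`
and possibly of one element `z` of order two. -/
def Special {G : Type} [Group G] (T : Subgroup G) : Prop :=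
  (∀ x ∈ T, ∀ y ∈ T, x * y = y * x) ∧
    ∃ z ∈ T, z * z = 1 ∧ ∀ t ∈ T, t ≠ 1 → t ≠ z → ∀ x, x * t = t * x → x ∈ T

/-- All elements which are not rational lie in special subgroups. -/
def Tame (G : Type) [Group G] : Prop := ∀ g : G, RatEl g ∨ ∃ T : Subgroup G, Special T ∧ g ∈ T

end Run7.h963.SX
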