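import Mathlib
import Pool.Agent.Run7.h963.SX.Defs

/-!
# Finite subgroups of `SL_2` and `PGL_2` of a field are tame
-/

set_option autoImplicit false
set_option linter.unusedSectionVars false

open Matrix
open scoped MatrixGroups

namespace Run7.h963.SX

section mat

variable {F : Type} [Field F]

/-- not a scalar matrix -/
def NS (A : Matrix (Fin 2) (Fin 2) F) : Prop := ¬ ∃ a : F, A = a • (1 : Matrix (Fin 2) (Fin 2) F)

lemma NS.cases {A : Matrix (Fin 2) (Fin 2) F} (h : NS A) :
    A 0 1 ≠ 0 ∨ A 1 0 ≠ 0 ∨ A 0 0 - A 1 1 ≠ 0 := by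
  by_contra hcon
  push Not at hcon
  obtain ⟨h1, h2, h3⟩ := hcon
  apply h
  refine ⟨A 0 0, ?_⟩
  ext i j
  fin_cases i <;> fin_cases j
  · simp
  · simp [h1]
  · simp [h2]
  · simpa using (sub_eq_zero.mp h3).symm

lemma comm_form {A B : Matrix (Fin 2) (Fin 2) F} (hA : NS A) (h : A * B = B * A) :
    ∃ a b : F, B = a • (1 : Matrix (Fin 2) (Fin 2) F) + b • A := by
  have e00 := congrFun (congrFun h 0) 0
  have e01 := congrFun (congrFun h 0) 1
  have e10 := congrFun (congrFun h 1) 0
  simp only [Matrix.mul_apply, Fin.sum_univ_two] at e00 e01 e10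
  have key : ∀ a b : F, B 0 0 = a + b * A 0 0 → B 0 1 = b * A 0 1 → B 1 0 = b * A 1 0 →
      B 1 1 = a + b * A 1 1 → ∃ a b : F, B = a • (1 : Matrix (Fin 2) (Fin 2) F) + b • A := by
    intro a b h1 h2 h3 h4
    refine ⟨a, b, ?_⟩
    ext i j
    fin_cases i <;> fin_cases j
    · simpa using h1
    · simpa using h2
    · simpa using h3
    · simpa using h4
  rcases hA.cases with hq | hr | hp
  · refine key (B 0 0 - B 0 1 / A 0 1 * A 0 0) (B 0 1 / A 0 1) ?_ ?_ ?_ ?_
    · ring
    · field_simp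
    · field_simp
      linear_combination e00
    · field_simp
      linear_combination e01
  · refine key (B 0 0 - B 1 0 / A 1 0 * A 0 0) (B 1 0 / A 1 0) ?_ ?_ ?_ ?_
    · ring
    · field_simp
      linear_combination -e00
    · field_simp
    · field_simp
      linear_combination -e10
  · by_cases hq : A 0 1 = 0
    · by_cases hr : A 1 0 = 0
      · have h1 : B 0 1 = 0 := by
          have h2 : (A 0 0 - A 1 1) * B 0 1 = 0 := by
            linear_combination e01 + (B 0 0 - B 1 1) * hq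
          exact (mul_eq_zero.mp h2).resolve_left hp
        have h2 : B 1 0 = 0 := by
          have h2 : (A 0 0 - A 1 1) * B 1 0 = 0 := by
            linear_combination -e10 + (B 0 0 - B 1 1) * hr
          exact (mul_eq_zero.mp h2).resolve_left hp
        refine key (B 0 0 - (B 0 0 - B 1 1) / (A 0 0 - A 1 1) * A 0 0)
          ((B 0 0 - B 1 1) / (A 0 0 - A 1 1)) ?_ ?_ ?_ ?_
        · ring
        · rw [h1, hq, mul_zero]
        · rw [h2, hr, mul_zero]
        · field_simp
          ring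
      · refine key (B 0 0 - B 1 0 / A 1 0 * A 0 0) (B 1 0 / A 1 0) ?_ ?_ ?_ ?_
        · ring
        · field_simp
          linear_combination -e00
        · field_simp
        · field_simp
          linear_combination -e10
    · refine key (B 0 0 - B 0 1 / A 0 1 * A 0 0) (B 0 1 / A 0 1) ?_ ?_ ?_ ?_
      · ring
      · field_simp
      · field_simp
        linear_combination e00
      · field_simp
        linear_combination e01

lemma comm_comm {A B C : Matrix (Fin 2) (Fin 2) F} (hA : NS A) (h : A * B = B * A)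
    (h' : A * C = C * A) : B * C = C * B := by
  obtain ⟨c, d, rfl⟩ := comm_form hA h'
  have h1 : Commute B A := h.symm
  exact ((Commute.one_right B).smul_right c).add_right (h1.smul_right d)

lemma cayley (A : Matrix (Fin 2) (Fin 2) F) : A * A = A.trace • A - A.det • (1 : Matrix _ _ F) := by
  ext i j
  fin_cases i <;> fin_cases j <;>
    simp [Matrix.mul_apply, Fin.sum_univ_two, Matrix.trace_fin_two, Matrix.det_fin_two] <;> ring

end mat

section grp

variable {G : Type} [Group G] [Finite G] {F : Type} [Field F]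

lemma ratEl_of_sq {g : G} (h : g * g = 1) : RatEl g := by
  intro k hk
  refine ⟨1, ?_⟩
  rw [one_mul, inv_one, mul_one]
  rcases Nat.even_or_odd k with ⟨j, hj⟩ | ⟨j, hj⟩
  · have h1 : g = 1 := by
      rw [← orderOf_eq_one_iff]
      have h2 : orderOf g ∣ 2 := orderOf_dvd_of_pow_eq_one (by rw [pow_two, h])
      have h4 : orderOf g ∣ k := h2.trans ⟨j, by omega⟩
      exact Nat.eq_one_of_dvd_coprimes hk h4 (dvd_refl _)
    rw [h1, one_pow]
  · rw [hj, pow_succ, pow_mul, pow_two, h, one_pow, one_mul]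

/-- finite subgroups of `SL_2(F)` -/
theorem tame_SL (φ : G →* SL(2, F)) (hφ : Function.Injective φ) : Tame G := by
  classical
  let A : G → Matrix (Fin 2) (Fin 2) F := fun g => (φ g : Matrix (Fin 2) (Fin 2) F)
  have hmul : ∀ x y, A (x * y) = A x * A y := by
    intro x y
    change ((φ (x * y) : SL(2, F)) : Matrix (Fin 2) (Fin 2) F) = _
    rw [map_mul]
    rfl
  have hinj : ∀ x y, A x = A y → x = y := fun x y h => hφ (Subtype.ext h)
  have hone : A 1 = 1 := by
    change ((φ 1 : SL(2, F)) : Matrix (Fin 2) (Fin 2) F) = _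
    rw [map_one]
    rfl
  have hdet : ∀ x, (A x).det = 1 := fun x => (φ x).2
  have hcomm : ∀ x y, x * y = y * x ↔ A x * A y = A y * A x := by
    intro x y
    rw [← hmul, ← hmul]
    exact ⟨fun h => by rw [h], fun h => hinj _ _ h⟩
  have hsc : ∀ x, ¬ NS (A x) → A x = 1 ∨ A x = -1 := by
    intro x hx
    unfold NS at hx
    push Not at hx
    obtain ⟨a, ha⟩ := hx
    have h1 := hdet x
    rw [ha, Matrix.det_smul, Matrix.det_one, mul_one, Fintype.card_fin, pow_two] at h1
    rcases mul_self_eq_one_iff.mp h1 with h | h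
    · left; rw [ha, h, one_smul]
    · right; rw [ha, h, neg_one_smul]
  intro g
  by_cases hg : NS (A g)
  · right
    have hT : ∀ x, x ∈ Subgroup.centralizer {g} ↔ A g * A x = A x * A g := by
      intro x
      rw [Subgroup.mem_centralizer_singleton_iff, ← hcomm]
      exact eq_comm
    refine ⟨Subgroup.centralizer {g}, ⟨fun x hx y hy => ?_, ?_⟩, ?_⟩
    · rw [hcomm]
      exact comm_comm hg ((hT x).mp hx) ((hT y).mp hy)
    · have key : ∃ z ∈ Subgroup.centralizer {g}, z * z = 1 ∧ ∀ t, t ≠ 1 → t ≠ z → NS (A t) := by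
        by_cases hz : ∃ z, A z = -1
        · obtain ⟨z, hz⟩ := hz
          refine ⟨z, (hT z).mpr (by rw [hz]; simp), hinj _ _ (by rw [hmul, hz, hone]; simp), ?_⟩
          intro t t1 tz
          by_contra hcon
          rcases hsc t hcon with h | h
          · exact t1 (hinj _ _ (by rw [h, hone]))
          · exact tz (hinj _ _ (by rw [h, hz]))
        · refine ⟨1, one_mem _, one_mul 1, ?_⟩
          intro t t1 _
          by_contra hcon
          rcases hsc t hcon with h | h
          · exact t1 (hinj _ _ (by rw [h, hone]))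
          · exact hz ⟨t, h⟩
      obtain ⟨z, hz, hzz, hN⟩ := key
      refine ⟨z, hz, hzz, fun t ht t1 tz x hx => ?_⟩
      exact (hT x).mpr (comm_comm (hN t t1 tz) ((hT t).mp ht).symm ((hcomm x t).mp hx).symm)
    · exact (hT g).mpr rfl
  · left
    refine ratEl_of_sq (hinj _ _ ?_)
    rw [hmul, hone]
    rcases hsc g hg with h | h <;> rw [h] <;> simp

/-- projective representations which separate the elements -/
structure PE (G : Type) [Group G] (F : Type) [Field F] where
  A : G → Matrix (Fin 2) (Fin 2) F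
  det_ne : ∀ x, (A x).det ≠ 0
  mul : ∀ x y, ∃ l : F, l ≠ 0 ∧ A (x * y) = l • (A x * A y)
  inj : ∀ x y, ∀ l : F, A x = l • A y → x = y

variable (P : PE G F)

lemma PE.one : ∃ l : F, l ≠ 0 ∧ P.A 1 = l • (1 : Matrix (Fin 2) (Fin 2) F) := by
  obtain ⟨l, hl, h⟩ := P.mul 1 1
  rw [one_mul] at h
  refine ⟨l⁻¹, inv_ne_zero hl, ?_⟩
  have h1 : P.A 1 * (P.A 1).adjugate = l • (P.A 1 * (P.A 1 * (P.A 1).adjugate)) := by
    have h0 := congrArg (fun M => M * (P.A 1).adjugate) h
    simp only [smul_mul_assoc, mul_assoc] at h0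
    exact h0
  rw [Matrix.mul_adjugate, mul_smul_comm, mul_one, smul_smul] at h1
  have hd := P.det_ne 1
  have h2 : (P.A 1).det⁻¹ • ((P.A 1).det • (1 : Matrix (Fin 2) (Fin 2) F)) =
      (P.A 1).det⁻¹ • ((l * (P.A 1).det) • P.A 1) := by rw [h1]
  rw [smul_smul, smul_smul, inv_mul_cancel₀ hd, one_smul] at h2
  rw [h2, smul_smul]
  have h3 : l⁻¹ * ((P.A 1).det⁻¹ * (l * (P.A 1).det)) = 1 := by field_simp
  rw [h3, one_smul]

lemma PE.ns {x : G} (hx : x ≠ 1) : NS (P.A x) := by
  rintro ⟨a, ha⟩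
  obtain ⟨l, hl, h⟩ := P.one
  apply hx
  refine P.inj x 1 (a * l⁻¹) ?_
  rw [ha, h, smul_smul, mul_assoc, inv_mul_cancel₀ hl, mul_one]

lemma PE.comm_of {x y : G} (h : P.A x * P.A y = P.A y * P.A x) : x * y = y * x := by
  obtain ⟨l, hl, h1⟩ := P.mul x y
  obtain ⟨m, hm, h2⟩ := P.mul y x
  refine P.inj _ _ (l * m⁻¹) ?_
  rw [h1, h2, h, smul_smul, mul_assoc, inv_mul_cancel₀ hm, mul_one]

lemma PE.sq_of {x : G} (h : (P.A x).trace = 0) : x * x = 1 := by
  obtain ⟨l, hl, h1⟩ := P.mul x x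
  by_contra hcon
  apply P.ns hcon
  refine ⟨l * -(P.A x).det, ?_⟩
  rw [h1, cayley, h, zero_smul, zero_sub, ← neg_smul, smul_smul]

lemma PE.trace_of {x : G} (h : x * x = 1) (hx : x ≠ 1) : (P.A x).trace = 0 := by
  by_contra hcon
  obtain ⟨l, hl, h1⟩ := P.mul x x
  obtain ⟨m, hm, h2⟩ := P.one
  apply P.ns hx
  rw [h, h2, cayley, smul_sub, smul_smul, smul_smul] at h1
  refine ⟨(l * (P.A x).trace)⁻¹ * (m + l * (P.A x).det), ?_⟩
  have h3 : (l * (P.A x).trace) • P.A x = (m + l * (P.A x).det) • (1 : Matrix (Fin 2) (Fin 2) F) := by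
    rw [add_smul, h1]
    abel
  rw [← smul_smul, ← h3, smul_smul, inv_mul_cancel₀ (mul_ne_zero hl hcon), one_smul]

lemma PE.comm_to {x y : G} (h : x * y = y * x) (hx : x * x ≠ 1) :
    P.A x * P.A y = P.A y * P.A x := by
  obtain ⟨l, hl, h1⟩ := P.mul x y
  obtain ⟨m, hm, h2⟩ := P.mul y x
  have ht : (P.A x).trace ≠ 0 := fun h => hx (P.sq_of h)
  have hd := P.det_ne y
  rw [h, h2] at h1
  -- `A y A x = (m⁻¹ l) A x A y`
  have h3 : P.A y * P.A x = (m⁻¹ * l) • (P.A x * P.A y) := by
    rw [← smul_smul, ← h1, smul_smul, inv_mul_cancel₀ hm, one_smul]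
  have h4 : (P.A y * P.A x * (P.A y).adjugate).trace =
      ((m⁻¹ * l) • (P.A x * P.A y) * (P.A y).adjugate).trace := by rw [h3]
  rw [Matrix.trace_mul_comm, ← mul_assoc, Matrix.adjugate_mul, smul_mul_assoc, one_mul,
    smul_mul_assoc, mul_assoc (P.A x), Matrix.mul_adjugate, mul_smul_comm, mul_one,
    Matrix.trace_smul, Matrix.trace_smul, Matrix.trace_smul, smul_eq_mul, smul_eq_mul] at h4
  have h5 : m⁻¹ * l = 1 := by
    have h6 : ((P.A y).det * (P.A x).trace) * (m⁻¹ * l - 1) = 0 := by linear_combination -h4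
    rcases mul_eq_zero.mp h6 with h7 | h7
    · exact absurd h7 (mul_ne_zero hd ht)
    · exact sub_eq_zero.mp h7
  rw [h3, h5, one_smul]

include P in
/-- the uniqueness of the involution -/
lemma PE.unique {g t t' : G} (hg : g * g ≠ 1) (ht : t * g = g * t) (ht' : t' * g = g * t')
    (h1 : t * t = 1) (h1' : t' * t' = 1) (hn : t ≠ 1) (hn' : t' ≠ 1) : t = t' := by
  have hτ : (P.A g).trace ≠ 0 := fun h => hg (P.sq_of h)
  have hgn : g ≠ 1 := fun h => hg (by rw [h, one_mul])
  obtain ⟨a, b, e⟩ := comm_form (P.ns hgn) (P.comm_to ht.symm hg)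
  obtain ⟨a', b', e'⟩ := comm_form (P.ns hgn) (P.comm_to ht'.symm hg)
  have f := P.trace_of h1 hn
  have f' := P.trace_of h1' hn'
  rw [e, Matrix.trace_add, Matrix.trace_smul, Matrix.trace_smul, Matrix.trace_one,
    Fintype.card_fin, smul_eq_mul, smul_eq_mul] at f
  rw [e', Matrix.trace_add, Matrix.trace_smul, Matrix.trace_smul, Matrix.trace_one,
    Fintype.card_fin, smul_eq_mul, smul_eq_mul] at f'
  have hb : b ≠ 0 := by
    intro h
    apply P.ns hn
    exact ⟨a, by rw [e, h, zero_smul, add_zero]⟩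
  have hb' : b' ≠ 0 := by
    intro h
    apply P.ns hn'
    exact ⟨a', by rw [e', h, zero_smul, add_zero]⟩
  push_cast at f f'
  have h2 : (2 : F) ≠ 0 := by
    intro h
    rw [h, mul_zero, zero_add] at f
    exact (mul_ne_zero hb hτ) f
  have h3 : b' * a = b * a' := by
    have h4 : 2 * (b' * a - b * a') = 0 := by linear_combination b' * f - b * f'
    exact sub_eq_zero.mp ((mul_eq_zero.mp h4).resolve_left h2)
  refine P.inj t t' (b * b'⁻¹) ?_
  rw [e, e', smul_add, smul_smul, smul_smul]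
  have h5 : b * b'⁻¹ * a' = a := by
    field_simp
    linear_combination -h3
  have h6 : b * b'⁻¹ * b' = b := by field_simp
  rw [h5, h6]

include P in
theorem PE.tame : Tame G := by
  classical
  intro g
  by_cases hg : g * g = 1
  · exact Or.inl (ratEl_of_sq hg)
  right
  have hgn : g ≠ 1 := fun h => hg (by rw [h, one_mul])
  have hT : ∀ x, x ∈ Subgroup.centralizer {g} ↔ x * g = g * x := by
    intro x
    rw [Subgroup.mem_centralizer_singleton_iff]
  have hA : ∀ x, x * g = g * x → P.A g * P.A x = P.A x * P.A g := fun x h => P.comm_to h.symm hg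
  refine ⟨Subgroup.centralizer {g}, ⟨fun x hx y hy => ?_, ?_⟩, ?_⟩
  · exact P.comm_of (comm_comm (P.ns hgn) (hA x ((hT x).mp hx)) (hA y ((hT y).mp hy)))
  · have key : ∃ z ∈ Subgroup.centralizer {g}, z * z = 1 ∧
        ∀ t ∈ Subgroup.centralizer {g}, t ≠ 1 → t ≠ z → t * t ≠ 1 := by
      by_cases hz : ∃ z ∈ Subgroup.centralizer {g}, z ≠ 1 ∧ z * z = 1
      · obtain ⟨z, hz, z1, zz⟩ := hz
        refine ⟨z, hz, zz, fun t ht t1 tz tt => tz ?_⟩
        exact P.unique hg ((hT t).mp ht) ((hT z).mp hz) tt zz t1 z1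
      · refine ⟨1, one_mem _, one_mul 1, fun t ht t1 _ tt => hz ⟨t, ht, t1, tt⟩⟩
    obtain ⟨z, hz, hzz, hN⟩ := key
    refine ⟨z, hz, hzz, fun t ht t1 tz x hx => ?_⟩
    rw [hT]
    have h1 : P.A t * P.A x = P.A x * P.A t := P.comm_to hx.symm (hN t ht t1 tz)
    have h2 : P.A t * P.A g = P.A g * P.A t := P.comm_to ((hT t).mp ht) (hN t ht t1 tz)
    exact P.comm_of (comm_comm (P.ns t1) h1 h2)
  · exact (hT g).mpr rfl

/-- finite subgroups of `PGL_2(F)` -/
theorem tame_PGL (φ : G →* PGL(2, F)) (hφ : Function.Injective φ) : Tame G := by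
  choose B hB using fun g : G => ProjGenLinGroup.mk_surjective (φ g)
  refine PE.tame (F := F) ⟨fun g => (B g : Matrix (Fin 2) (Fin 2) F), fun g => ?_, fun x y => ?_,
    fun x y l h => ?_⟩
  · have h1 : IsUnit (B g : Matrix (Fin 2) (Fin 2) F) := (B g).isUnit
    exact ((Matrix.isUnit_iff_isUnit_det _).mp h1).ne_zero
  · have h1 : ProjGenLinGroup.mk (B x * B y) = ProjGenLinGroup.mk (B (x * y)) := by
      rw [map_mul, hB, hB, hB, map_mul]
    obtain ⟨u, hu⟩ := ProjGenLinGroup.mk_eq_mk_iff.mp h1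
    refine ⟨u, u.ne_zero, ?_⟩
    rw [← hu]
    ext i j
    simp [mul_comm]
  · apply hφ
    have hl : l ≠ 0 := by
      rintro rfl
      rw [zero_smul] at h
      have h1 : IsUnit (B x : Matrix (Fin 2) (Fin 2) F) := (B x).isUnit
      have h2 := ((Matrix.isUnit_iff_isUnit_det _).mp h1).ne_zero
      rw [h] at h2
      exact h2 (by simp)
    rw [← hB, ← hB]
    refine (ProjGenLinGroup.mk_eq_mk_iff.mpr ⟨Units.mk0 l hl, ?_⟩).symm
    apply Units.ext
    rw [h]
    ext i j
    simp [mul_comm]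

end grp

end Run7.h963.SX
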