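import Pool.Agent.Run7.h963.SX.Mac
import Pool.Agent.R389.Class

/-!
# Exceptional characters
-/

set_option autoImplicit false
set_option linter.unusedSectionVars false

open Pool.Agent.R389 Pool.Agent.W446.AS Pool.Agent.H541R3.ART

namespace Run7.h963.SX

variable {G : Type} [Group G] [Finite G] {T : Subgroup G} {z : G}

lemma ind_rel {η θ : T →* ℂˣ} {x : G} (h : Rel T η θ x) : ind T (lc η) = ind T (lc θ) := by
  refine (ind_conj T T x⁻¹ (fun s => ⟨fun hs => ?_, fun hs => ?_⟩) (lc η) (lc θ)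
    (fun s hs => ?_)).symm
  · rw [inv_inv]; exact h.mem hs
  · have h1 := h.mem' hs
    have h2 : x * (x⁻¹ * s * x⁻¹⁻¹) * x⁻¹ = s := by group
    rwa [h2] at h1
  · change ((θ ⟨s, hs⟩ : ℂˣ) : ℂ) = ((η ⟨x⁻¹ * s * x⁻¹⁻¹, _⟩ : ℂˣ) : ℂ)
    rw [← h.eq hs]
    congr 2
    exact Subtype.ext (by group)

lemma virt_lin (η : T →* ℂˣ) : Virt (ind T (lc η)) :=
  virt_ind T (AddSubgroup.subset_closure (lin_irr η))

lemma del_virt (θ θ' : T →* ℂˣ) : Virt (ind T (lc θ) - ind T (lc θ')) :=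
  sub_mem (S := AddSubgroup (G → ℂ)) (virt_lin θ) (virt_lin θ')

lemma del_one (θ θ' : T →* ℂˣ) : (ind T (lc θ) - ind T (lc θ')) 1 = 0 := by
  rw [Pi.sub_apply, ind_one_val, ind_one_val, sub_self]

lemma del_norm (hT : Spec T z) {θ θ' : T →* ℂˣ} (r : Reg T θ) (r' : Reg T θ')
    (h : θ ⟨z, hT.mem⟩ = θ' ⟨z, hT.mem⟩) (hn : ¬ ∃ x, Rel T θ θ' x) :
    pr (ind T (lc θ) - ind T (lc θ')) (ind T (lc θ) - ind T (lc θ')) = 2 := by
  rw [pr_subr, hT.mackey r h, hT.mackey r' h, cj_self hT, cj_self hT, cj_neg hn,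
    cj_neg (fun ⟨x, hx⟩ => hn ⟨_, hx.symm⟩)]
  norm_num

/-- the multiplicities are different at some pair of regular characters -/
def Exc (T : Subgroup G) (z : T) (χ : G → ℂ) : Prop :=
  ∃ θ θ' : T →* ℂˣ, Reg T θ ∧ Reg T θ' ∧ θ z = θ' z ∧
    pr χ (ind T (lc θ)) ≠ pr χ (ind T (lc θ'))

/-- **Exceptional characters.** -/
theorem exc_pair (hT : Spec T z) {χ : G → ℂ} (hχ : χ ∈ Irr G) (h : Exc T ⟨z, hT.mem⟩ χ) :
    ∃ (θ₀ : T →* ℂˣ) (ε : ℤ), Reg T θ₀ ∧ (ε = 1 ∨ ε = -1) ∧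
      ¬ Exc T ⟨z, hT.mem⟩ (χ - ε • ind T (lc θ₀)) := by
  classical
  obtain ⟨θ₁, θ₂, r₁, r₂, h12, hne⟩ := h
  have hm : Virt χ := AddSubgroup.subset_closure hχ
  choose M hM using fun θ : T →* ℂˣ => Virt.pr_int' hm (virt_lin (T := T) θ)
  have hMne : M θ₁ ≠ M θ₂ := fun h => hne (by rw [hM, hM, h])
  have hrel : ∀ {η θ : T →* ℂˣ}, (∃ x, Rel T η θ x) → M η = M θ := by
    rintro η θ ⟨x, hx⟩
    have h1 := hM η
    rw [ind_rel hx, hM θ] at h1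
    exact_mod_cast h1.symm
  have hpr : ∀ θ θ' : T →* ℂˣ, pr (ind T (lc θ) - ind T (lc θ')) χ = ((M θ - M θ' : ℤ) : ℂ) := by
    intro θ θ'
    rw [pr_sub, pr_comm, hM, pr_comm, hM]
    push_cast
    rfl
  have hun : ¬ ∃ x, Rel T θ₁ θ₂ x := fun h => hMne (hrel h)
  have hle : ∀ {θ θ' : T →* ℂˣ}, Reg T θ → Reg T θ' → θ ⟨z, hT.mem⟩ = θ' ⟨z, hT.mem⟩ →
      M θ - M θ' = 0 ∨ M θ - M θ' = 1 ∨ M θ - M θ' = -1 := by
    intro θ θ' r r' hz
    by_cases hn : ∃ x, Rel T θ θ' x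
    · left
      rw [hrel hn, sub_self]
    · have h1 := pr_cases (del_virt θ θ') (del_norm hT r r' hz hn) (del_one θ θ') hχ
      rw [hpr] at h1
      exact_mod_cast h1
  have hdis : ∀ {θ θ' : T →* ℂˣ}, Reg T θ → Reg T θ' → θ ⟨z, hT.mem⟩ = θ' ⟨z, hT.mem⟩ →
      (¬ ∃ x, Rel T θ θ₁ x) → (¬ ∃ x, Rel T θ θ₂ x) → (¬ ∃ x, Rel T θ' θ₁ x) →
      (¬ ∃ x, Rel T θ' θ₂ x) → M θ = M θ' := by
    intro θ θ' r r' hz a1 a2 a3 a4
    by_contra hcon
    have hn : ¬ ∃ x, Rel T θ θ' x := fun h => hcon (hrel h)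
    refine pr_two_ne (del_virt θ₁ θ₂) (del_norm hT r₁ r₂ h12 hun) (del_one θ₁ θ₂)
      (del_virt θ θ') (del_norm hT r r' hz hn) (del_one θ θ') hχ ?_ ?_ ?_
    · rw [hpr]
      exact_mod_cast sub_ne_zero.mpr hMne
    · rw [hpr]
      exact_mod_cast sub_ne_zero.mpr hcon
    · rw [pr_subr, hT.mackey r h12, hT.mackey r' h12, cj_neg a1, cj_neg a2, cj_neg a3, cj_neg a4]
      norm_num
  have hsy : ∀ {η θ : T →* ℂˣ}, (¬ ∃ x, Rel T η θ x) → ¬ ∃ x, Rel T θ η x :=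
    fun h ⟨x, hx⟩ => h ⟨_, hx.symm⟩
  -- the choice of the character
  have key : ∃ (θ₀ : T →* ℂˣ) (ε c : ℤ), Reg T θ₀ ∧ θ₀ ⟨z, hT.mem⟩ = θ₁ ⟨z, hT.mem⟩ ∧
      (ε = 1 ∨ ε = -1) ∧ ∀ θ, Reg T θ → θ ⟨z, hT.mem⟩ = θ₁ ⟨z, hT.mem⟩ →
        M θ - ε * cj T θ₀ θ = c := by
    by_cases hcase : ∃ η, Reg T η ∧ η ⟨z, hT.mem⟩ = θ₁ ⟨z, hT.mem⟩ ∧ (¬ ∃ x, Rel T θ₁ η x) ∧
        (¬ ∃ x, Rel T θ₂ η x) ∧ M η = M θ₁
    · obtain ⟨η, rη, hη, n1, n2, e⟩ := hcase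
      refine ⟨θ₂, M θ₂ - M θ₁, M θ₁, r₂, h12.symm, ?_, ?_⟩
      · have := hle r₂ r₁ h12.symm
        omega
      · intro θ r hz
        by_cases c2 : ∃ x, Rel T θ₂ θ x
        · obtain ⟨x, hx⟩ := c2
          rw [cj_pos hx, ← hrel ⟨x, hx⟩]
          ring
        · rw [cj_neg c2]
          by_cases c1 : ∃ x, Rel T θ₁ θ x
          · rw [← hrel c1]; ring
          · rw [hdis r rη (hz.trans hη.symm) (hsy c1) (hsy c2) (hsy n1) (hsy n2), e]
            ring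
    · refine ⟨θ₁, M θ₁ - M θ₂, M θ₂, r₁, rfl, ?_, ?_⟩
      · have := hle r₁ r₂ h12
        omega
      · intro θ r hz
        by_cases c1 : ∃ x, Rel T θ₁ θ x
        · obtain ⟨x, hx⟩ := c1
          rw [cj_pos hx, ← hrel ⟨x, hx⟩]
          ring
        · rw [cj_neg c1]
          by_cases c2 : ∃ x, Rel T θ₂ θ x
          · rw [← hrel c2]; ring
          · have e1 : M θ ≠ M θ₁ := fun h => hcase ⟨θ, r, hz, c1, c2, h⟩
            have e2 := hle r r₁ hz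
            have e3 := hle r r₂ (hz.trans h12)
            have e4 := hle r₁ r₂ h12
            rw [mul_zero, sub_zero]
            omega
  obtain ⟨θ₀, ε, c, r₀, z₀, hε, hc⟩ := key
  refine ⟨θ₀, ε, r₀, hε, ?_⟩
  rintro ⟨θ, θ', r, r', hz, hcon⟩
  apply hcon
  have h1 : M θ - ε * cj T θ₀ θ = M θ' - ε * cj T θ₀ θ' := by
    by_cases hz1 : θ ⟨z, hT.mem⟩ = θ₁ ⟨z, hT.mem⟩
    · rw [hc θ r hz1, hc θ' r' (hz.symm.trans hz1)]
    · have n0 : ∀ ψ : T →* ℂˣ, ψ ⟨z, hT.mem⟩ = θ₁ ⟨z, hT.mem⟩ → ∀ φ : T →* ℂˣ,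
          φ ⟨z, hT.mem⟩ = θ ⟨z, hT.mem⟩ → ¬ ∃ x, Rel T φ ψ x := by
        rintro ψ hψ φ hφ ⟨x, hx⟩
        exact hz1 (hφ.symm.trans ((Rel.zeq hT hx).trans hψ))
      rw [cj_neg (hsy (n0 θ₀ z₀ θ rfl)), cj_neg (hsy (n0 θ₀ z₀ θ' hz.symm)),
        hdis r r' hz (n0 θ₁ rfl θ rfl) (n0 θ₂ h12.symm θ rfl) (n0 θ₁ rfl θ' hz.symm)
          (n0 θ₂ h12.symm θ' hz.symm)]
  have hsm : ∀ f : G → ℂ, pr (ε • ind T (lc θ₀)) f = ε * pr (ind T (lc θ₀)) f := by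
    intro f
    rcases hε with h | h
    · rw [h]; simp
    · rw [h, neg_one_smul, pr_neg]; simp
  have h2 := hT.mackey r₀ hz
  rw [pr_sub] at h2
  rw [pr_sub, pr_sub, hM, hM, hsm, hsm, pr_comm (ind T (lc θ₀)), pr_comm (ind T (lc θ₀))]
  have h3 : ((M θ - ε * cj T θ₀ θ : ℤ) : ℂ) = ((M θ' - ε * cj T θ₀ θ' : ℤ) : ℂ) := by rw [h1]
  push_cast at h2 h3
  linear_combination h3 - (ε : ℂ) * h2

/-- characters which are not regular have order at most two -/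
lemma Spec.sq_of_not_reg (hT : Spec T z) {θ : T →* ℂˣ} (h : ¬ Reg T θ) (s : T) : θ s ^ 2 = 1 := by
  classical
  unfold Reg at h
  push Not at h
  obtain ⟨x, hx, hxT⟩ := h
  let φ : T →* T :=
    { toFun := fun s => ⟨x⁻¹ * s * x * (s : G)⁻¹, T.mul_mem (hx.mem s.2) (T.inv_mem s.2)⟩
      map_one' := Subtype.ext (by simp)
      map_mul' := by
        intro a b
        apply Subtype.ext
        simp only [Subgroup.coe_mul]
        have h1 := hT.comm _ (T.inv_mem a.2) _ (T.mul_mem (hx.mem b.2) (T.inv_mem b.2))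
        calc x⁻¹ * (↑a * ↑b) * x * (↑a * ↑b : G)⁻¹
            = x⁻¹ * a * x * ((x⁻¹ * b * x * (b : G)⁻¹) * (a : G)⁻¹) := by group
          _ = x⁻¹ * a * x * ((a : G)⁻¹ * (x⁻¹ * b * x * (b : G)⁻¹)) := by rw [h1]
          _ = _ := by group }
  have hθφ : ∀ s, θ (φ s) = 1 := by
    intro s
    have h1 : φ s = ⟨x⁻¹ * s * x, hx.mem s.2⟩ * s⁻¹ := Subtype.ext rfl
    rw [h1, map_mul, hx.eq s.2, map_inv]
    exact mul_inv_cancel _
  have hker : ∀ s ∈ φ.ker, s = 1 ∨ s = ⟨z, hT.mem⟩ := by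
    intro s hs
    by_contra hcon
    push Not at hcon
    apply hxT
    have h1 : x⁻¹ * s * x * (s : G)⁻¹ = 1 := congrArg Subtype.val (MonoidHom.mem_ker.mp hs)
    refine hT.cent s s.2 (fun h => hcon.1 (Subtype.ext h)) (fun h => hcon.2 (Subtype.ext h)) x ?_
    have h2 : x⁻¹ * s * x = s := mul_inv_eq_one.mp h1
    conv_lhs => rw [← h2]
    group
  have hcard : Nat.card φ.ker ≤ 2 := by
    have h1 : (φ.ker : Set T) ⊆ ({1, ⟨z, hT.mem⟩} : Finset T) := by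
      intro s hs
      rcases hker s hs with h | h
      · simp [h]
      · simp [h]
    have h2 := Set.ncard_le_ncard h1 (Finset.finite_toSet _)
    rw [Set.ncard_coe_finset] at h2
    refine le_trans (le_of_eq ?_) (h2.trans (Finset.card_le_two))
    exact Nat.card_coe_set_eq _
  have hidx : φ.range.index = Nat.card φ.ker := by
    have h1 := φ.range.card_mul_index
    have h2 := φ.ker.card_mul_index
    rw [Subgroup.index_ker] at h2
    have h3 : 0 < Nat.card φ.range := Nat.card_pos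
    rw [← h2, mul_comm] at h1
    exact Nat.eq_of_mul_eq_mul_right h3 h1
  have hnor : φ.range.Normal := ⟨fun n hn g => by
    have h1 : g * n * g⁻¹ = n := Subtype.ext (by
      simp only [Subgroup.coe_mul, Subgroup.coe_inv]
      rw [hT.comm g g.2 n n.2]
      group)
    rwa [h1]⟩
  obtain ⟨u, hu⟩ := φ.range.pow_index_mem s
  have h1 : θ s ^ Nat.card φ.ker = 1 := by
    rw [← map_pow, ← hidx, ← hu, hθφ]
  have h2 : 0 < Nat.card φ.ker := Nat.card_pos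
  have h3 : Nat.card φ.ker = 1 ∨ Nat.card φ.ker = 2 := by omega
  rcases h3 with h | h
  · rw [h, pow_one] at h1
    rw [h1, one_pow]
  · rwa [h] at h1

/-- an element of order at most two is fixed by the prime powers -/
lemma pow_of_sq {H : Type} [Group H] [Finite H] {a : H} (ha : a * a = 1) {k : ℕ}
    (hk : k.Coprime (Nat.card H)) : a ^ k = a := by
  rcases Nat.even_or_odd k with ⟨j, hj⟩ | ⟨j, hj⟩
  · have h1 : a = 1 := by
      rw [← orderOf_eq_one_iff]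
      have h2 : orderOf a ∣ 2 := orderOf_dvd_of_pow_eq_one (by rw [pow_two, ha])
      have h3 : orderOf a ∣ Nat.card H := orderOf_dvd_natCard a
      have h4 : orderOf a ∣ k := h2.trans ⟨j, by omega⟩
      exact Nat.eq_one_of_dvd_coprimes hk h4 h3
    rw [h1, one_pow]
  · rw [hj, pow_succ, pow_mul, pow_two, ha, one_pow, one_mul]

end Run7.h963.SX
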