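import Pool.Agent.Run7.h963.SX.Gal

/-!
# The invariants of the irrational characters of tame Galois groups
-/

set_option autoImplicit false
set_option linter.unusedSectionVars false

open Pool.Agent.R389 Pool.Agent.W446.AS Pool.Agent.H541R3.ART
open Pool.Agent.K4H74.ST (IsChar ArtinInvariant Val)
open NumberField Pool.Agent.K4H74.SK
open Run7.h200.SP (RatVal IsIrrChr mem_irr sub subChr res res_mem val_sub val_zsmul)

namespace Run7.h963.SX

/-- the character of the Galois group of `L / F` in terms of the extension by zero -/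
lemma over_eq (E : Ext) (T : Subgroup (G E)) (θ : T →* ℂˣ) :
    (fun h : G (sub E T) => Pool.Agent.R389.ext T (fun x => ((θ x : ℂˣ) : ℂ)) (res h)) =
      lin (subChr E T θ) := by
  funext h
  let k : T := (IntermediateField.subgroupEquivAlgEquiv
    (show Subgroup (E.L ≃ₐ[E.K] E.L) from T)).symm h
  have h1 : res h = (k : G E) := res_mem (K := E.K) (L := E.L) T h
  rw [h1, ext_mem _ _ k.2]
  rfl

section inv

variable {K L : Type} [Field K] [NumberField K] [Field L] [NumberField L] [Algebra K L]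
  [IsGalois K L]

lemma val_rel {χ ψ ψ' : (L ≃ₐ[K] L) → ℂ} (hχ : IsChar χ) (hψ : IsChar ψ) (hψ' : IsChar ψ')
    {T : Subgroup (L ≃ₐ[K] L)} {θ : T →* ℂˣ} {ε : ℤ} (h : χ + ψ = ψ' + ε • ind T (lc θ))
    {M : Type} [CommGroup M] (B : ArtinInvariant M) :
    B.val K L χ * B.val K L ψ = B.val K L ψ' *
      B.val K L (ind T (fun h => ((θ h : ℂˣ) : ℂ))) ^ ε := by
  have h1 : IsChar (ind T (lc θ)) := Pool.Agent.K4H74.SC.isChar_ind _ (IsChar.lc _)
  have h2 := val_zsmul B (Val.of_char B h1) ε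
  have h3 := Val.add B (Val.of_char B hψ') h2
  rw [← h] at h3
  have h4 := Val.of_char B (hχ.add hψ)
  rw [← B.val_add K L _ _ hχ hψ]
  exact h4.unique B h3

/-- from the irreducible characters to all characters -/
lemma val_closure {M : Type} [CommGroup M] (B : ArtinInvariant M)
    (h : ∀ χ ∈ Irr (L ≃ₐ[K] L), B.val K L χ = 1) {f : (L ≃ₐ[K] L) → ℂ} (hf : IsChar f) :
    B.val K L f = 1 := by
  have hm := Pool.Agent.K4H74.SC.IsChar.mem hf
  clear hf
  induction hm using AddSubmonoid.closure_induction with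
  | mem χ hχ => exact h χ hχ
  | zero =>
    have h1 := B.val_add K L 0 0 IsChar.zero IsChar.zero
    rw [add_zero] at h1
    exact (mul_eq_left.mp h1.symm)
  | add a b ha hb iha ihb =>
    rw [B.val_add K L a b (Pool.Agent.K4H74.SC.isChar_of_mem ha)
      (Pool.Agent.K4H74.SC.isChar_of_mem hb), iha, ihb, one_mul]

end inv

/-- the relation of the invariants -/
theorem main_ext {E : Ext} {χ : G E → ℂ} (hχ : χ ∈ Irr (G E)) {T : Subgroup (G E)}
    (hS : Special T) {t : G E} (ht : t ∈ T) (hn : ¬ ∃ q : ℚ, χ t = q) :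
    ∃ (θ : T →* ℂˣ) (ε : ℤ) (ψ ψ' : G E → ℂ), Reg T θ ∧
      (ε = 1 ∨ ε = -1) ∧ IsChr ψ ∧ IsChr ψ' ∧ RatVal ψ ∧ RatVal ψ' ∧
      χ + ψ = ψ' + ε • ind T (lc θ) ∧
      (∀ (M : Type) [CommGroup M] (B : ArtinInvariant M),
        B.val E.K E.L χ * B.val E.K E.L ψ = B.val E.K E.L ψ' *
          B.val (sub E T).K (sub E T).L (lin (subChr E T θ)) ^ ε) ∧
      ∀ (τ : ℂ ≃+* ℂ) (M : Type) [CommGroup M] (B : ArtinInvariant M),
        B.val E.K E.L (fun g => τ (χ g)) * B.val E.K E.L ψ = B.val E.K E.L ψ' *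
          B.val (sub E T).K (sub E T).L (lin (subChr E T (gal τ θ))) ^ ε := by
  have hfin : Finite (G E) := inferInstanceAs (Finite (E.L ≃ₐ[E.K] E.L))
  obtain ⟨θ, ε, h2, h3, h4⟩ := main_gal hS hχ ht hn
  obtain ⟨ψ, ψ', h4, h5, h6, h7, h8⟩ := chr_of hχ h4
  refine ⟨θ, ε, ψ, ψ', h2, h3, isChr_iff.mpr h4, isChr_iff.mpr h5, h6, h7, h8, ?_, ?_⟩
  · intro M _ B
    have h9 := val_rel (K := E.K) (L := E.L)
      (Pool.Agent.K4H74.SC.isChar_of_mem (AddSubmonoid.subset_closure hχ)) h4 h5 h8 B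
    have h10 := val_sub B E T θ
    rw [h10]
    exact h9
  · intro τ M _ B
    have hc : (fun g => τ (χ g)) + ψ = ψ' + ε • ind T (lc (gal τ θ)) := by
      funext g
      have e1 := congrArg τ (congrFun h8 g)
      obtain ⟨q, hq⟩ := h6 g
      obtain ⟨q', hq'⟩ := h7 g
      rw [Pi.add_apply, Pi.add_apply, Pi.smul_apply, map_add, map_add, map_zsmul, hq, hq',
        map_ratCast, map_ratCast] at e1
      rw [Pi.add_apply, Pi.add_apply, Pi.smul_apply, hq, hq', gal_ind]
      exact e1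
    have h9 := val_rel (K := E.K) (L := E.L)
      (Pool.Agent.K4H74.SC.isChar_of_mem (AddSubmonoid.subset_closure (irr_gal τ hχ))) h4 h5 hc B
    have h10 := val_sub B E T (gal τ θ)
    exact h9.trans (congrArg (fun v => B.val E.K E.L ψ' * v ^ ε) h10.symm)

end Run7.h963.SX
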