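import Pool.Agent.Run7.h963.SX.Grp
import Pool.Agent.Run7.h508.SQ.Fix

/-!
# An irreducible character with an irrational value on a special subgroup
-/

set_option autoImplicit false
set_option linter.unusedSectionVars false

open Pool.Agent.R389 Pool.Agent.W446.AS Pool.Agent.H541R3.ART
open Pool.Agent.K4H74.ST (IsChar)
open Pool.Agent.K4H34.AL (QB isChar_mem)
open Pool.Agent.Run7.h508.SQ (mem_of_fixed)
open Run7.h200.SP (virt_sub rat_of_pow RatVal regf regf_rat exists_compl isChar_regf isChar_nsmul)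

namespace Run7.h963.SX

variable {G : Type} [Group G] [Finite G] {T : Subgroup G} {z : G}

/-- the conjugate linear character -/
def gal (σ : ℂ ≃+* ℂ) (θ : T →* ℂˣ) : T →* ℂˣ :=
  (Units.map (σ : ℂ →+* ℂ).toMonoidHom).comp θ

lemma gal_apply (σ : ℂ ≃+* ℂ) (θ : T →* ℂˣ) (s : T) :
    ((gal σ θ s : ℂˣ) : ℂ) = σ ((θ s : ℂˣ) : ℂ) := rfl

lemma gal_symm (σ : ℂ ≃+* ℂ) (θ : T →* ℂˣ) : gal σ (gal σ.symm θ) = θ := by
  ext s
  rw [gal_apply, gal_apply, RingEquiv.apply_symm_apply]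

lemma gal_rel {σ : ℂ ≃+* ℂ} {η θ : T →* ℂˣ} {x : G} (h : Rel T η θ x) :
    Rel T (gal σ η) (gal σ θ) x :=
  rel_of fun s hs => ⟨h.mem hs, by
    apply Units.ext
    rw [gal_apply, gal_apply, h.eq hs]⟩

lemma gal_rel' {σ : ℂ ≃+* ℂ} {η θ : T →* ℂˣ} {x : G} (h : Rel T (gal σ η) (gal σ θ) x) :
    Rel T η θ x :=
  rel_of fun s hs => ⟨h.mem hs, by
    apply Units.ext
    have h1 := congrArg Units.val (h.eq hs)
    rw [gal_apply, gal_apply] at h1
    exact σ.injective h1⟩

lemma gal_reg {σ : ℂ ≃+* ℂ} {θ : T →* ℂˣ} (h : Reg T θ) : Reg T (gal σ θ) :=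
  fun x hx => h x (gal_rel' hx)

lemma Spec.val_z (hT : Spec T z) (θ : T →* ℂˣ) :
    ((θ ⟨z, hT.mem⟩ : ℂˣ) : ℂ) = 1 ∨ ((θ ⟨z, hT.mem⟩ : ℂˣ) : ℂ) = -1 := by
  have hzz : ((⟨z, hT.mem⟩ : T)) * ⟨z, hT.mem⟩ = 1 := Subtype.ext hT.sq
  refine mul_self_eq_one_iff.mp ?_
  rw [← Units.val_mul, ← map_mul, hzz, map_one, Units.val_one]

lemma gal_z (hT : Spec T z) (σ : ℂ ≃+* ℂ) (θ : T →* ℂˣ) :
    gal σ θ ⟨z, hT.mem⟩ = θ ⟨z, hT.mem⟩ := by
  apply Units.ext
  rw [gal_apply]
  rcases hT.val_z θ with h | h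
  · rw [h, map_one]
  · rw [h, map_neg, map_one]

lemma gal_ind (σ : ℂ ≃+* ℂ) (θ : T →* ℂˣ) (g : G) :
    ind T (lc (gal σ θ)) g = σ (ind T (lc θ) g) :=
  (ind_map (σ : ℂ →+* ℂ) T (lc θ) g).symm

lemma pr_gal (σ : ℂ ≃+* ℂ) (a b : G → ℂ) :
    pr (fun g => σ (a g)) (fun g => σ (b g)) = σ (pr a b) := by
  classical
  have : Fintype G := Fintype.ofFinite G
  rw [pr_eq, pr_eq, map_mul, map_inv₀, map_natCast, map_sum]
  congr 1
  exact Finset.sum_congr rfl fun g _ => by rw [map_mul]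

lemma irr_gal (σ : ℂ ≃+* ℂ) {χ : G → ℂ} (hχ : χ ∈ Irr G) : (fun g => σ (χ g)) ∈ Irr G := by
  have h1 : IsChar (fun g => (σ : ℂ →+* ℂ) (χ g)) := Pool.Agent.K4H74.SC.isChar_sigma
    (Pool.Agent.K4H74.SC.isChar_of_mem (AddSubmonoid.subset_closure hχ)) _
  obtain ⟨d, -, hd⟩ := irr_deg_pos hχ
  refine irr_of_norm (d := d) h1.virt ?_ ?_
  · rw [pr_gal, pr_self hχ, map_one]
  · rw [hd, map_natCast]

/-- the conjugates of a character which is not exceptional -/
lemma not_exc_gal (hT : Spec T z) (σ : ℂ ≃+* ℂ) {f : G → ℂ} (h : ¬ Exc T ⟨z, hT.mem⟩ f) :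
    ¬ Exc T ⟨z, hT.mem⟩ (fun g => σ (f g)) := by
  rintro ⟨θ, θ', r, r', hz, hne⟩
  apply h
  refine ⟨gal σ.symm θ, gal σ.symm θ', gal_reg r, gal_reg r', by rw [gal_z hT, gal_z hT, hz], ?_⟩
  intro hcon
  apply hne
  have key : ∀ η : T →* ℂˣ, pr (fun g => σ (f g)) (ind T (lc η)) =
      σ (pr f (ind T (lc (gal σ.symm η)))) := by
    intro η
    rw [← pr_gal]
    congr 1
    funext g
    rw [← gal_ind, gal_symm]
  rw [key, key, hcon]

/-- **The irrational characters.** -/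
theorem main_gal (hS : Special T) {χ : G → ℂ} (hχ : χ ∈ Irr G) {t : G} (ht : t ∈ T)
    (hn : ¬ ∃ q : ℚ, χ t = q) :
    ∃ (θ : T →* ℂˣ) (ε : ℤ), Reg T θ ∧ (ε = 1 ∨ ε = -1) ∧ RatVal (χ - ε • ind T (lc θ)) := by
  classical
  obtain ⟨z, hT⟩ := hS.spec
  have hv : Virt χ := AddSubgroup.subset_closure hχ
  have hE : Exc T ⟨z, hT.mem⟩ χ := by
    by_contra hcon
    apply hn
    have h1 : χ ∈ AddSubmonoid.closure (Irr G) := AddSubmonoid.subset_closure hχ
    have h2 : (0 : G → ℂ) ∈ AddSubmonoid.closure (Irr G) := zero_mem _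
    obtain ⟨q, hq⟩ := rat_of_pow h1 h2 t (fun k hk => by rw [rat_on hT hv hcon ht hk]; rfl)
    exact ⟨q, by rw [← hq]; simp⟩
  obtain ⟨θ₀, ε, r₀, hε, hf⟩ := exc_pair hT hχ hE
  refine ⟨θ₀, ε, r₀, hε, fun x => ?_⟩
  -- the function is fixed by all automorphisms
  have hfix : ∀ σ : ℂ ≃+* ℂ, (fun g => σ (χ g)) - ε • ind T (lc (gal σ θ₀)) =
      χ - ε • ind T (lc θ₀) := by
    intro σ
    have hχ' := irr_gal σ hχ
    have hE' := not_exc_gal hT σ hf
    have he : (fun g => σ ((χ - ε • ind T (lc θ₀)) g)) =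
        (fun g => σ (χ g)) - ε • ind T (lc (gal σ θ₀)) := by
      funext g
      rw [Pi.sub_apply, Pi.sub_apply, Pi.smul_apply, Pi.smul_apply, map_sub, map_zsmul, gal_ind]
    rw [he] at hE'
    -- the pairing with the differences
    have hpr : ∀ θ θ' : T →* ℂˣ, Reg T θ → Reg T θ' → θ ⟨z, hT.mem⟩ = θ' ⟨z, hT.mem⟩ →
        pr ((fun g => σ (χ g)) - ε • ind T (lc (gal σ θ₀))) (ind T (lc θ) - ind T (lc θ')) =
          pr (χ - ε • ind T (lc θ₀)) (ind T (lc θ) - ind T (lc θ')) := by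
      intro θ θ' r r' hz
      have e1 : pr (χ - ε • ind T (lc θ₀)) (ind T (lc θ)) =
          pr (χ - ε • ind T (lc θ₀)) (ind T (lc θ')) := by
        by_contra hcon
        exact hf ⟨θ, θ', r, r', hz, hcon⟩
      have e2 : pr ((fun g => σ (χ g)) - ε • ind T (lc (gal σ θ₀))) (ind T (lc θ)) =
          pr ((fun g => σ (χ g)) - ε • ind T (lc (gal σ θ₀))) (ind T (lc θ')) := by
        by_contra hcon
        exact hE' ⟨θ, θ', r, r', hz, hcon⟩
      rw [pr_subr, pr_subr, e1, e2, sub_self, sub_self]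
    by_cases hrel : ∃ x, Rel T θ₀ (gal σ θ₀) x
    · obtain ⟨y, hy⟩ := hrel
      have e0 : ind T (lc (gal σ θ₀)) = ind T (lc θ₀) := (ind_rel hy).symm
      rw [e0] at hpr ⊢
      obtain ⟨θ, θ', r, r', hz, hne⟩ := hE
      have a1 : ¬ ∃ x, Rel T θ θ' x := fun ⟨x, hx⟩ => hne (by rw [ind_rel hx])
      obtain ⟨a, ha, b, hb, hab, hδ⟩ :=
        norm_two (del_virt θ θ') (del_norm hT r r' hz a1) (del_one θ θ')
      have h1 := hpr θ θ' r r' hz
      rw [pr_sub, pr_sub, sub_left_inj, hδ, pr_subr, pr_subr, pr_irr hχ ha, pr_irr hχ hb,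
        pr_irr hχ' ha, pr_irr hχ' hb] at h1
      have h2 : pr χ (ind T (lc θ) - ind T (lc θ')) ≠ 0 := by
        rw [pr_subr]
        exact sub_ne_zero.mpr hne
      rw [hδ, pr_subr, pr_irr hχ ha, pr_irr hχ hb] at h2
      have h3 : (fun g => σ (χ g)) = χ := by
        by_cases c1 : χ = a
        · by_cases c2 : (fun g => σ (χ g)) = a
          · rw [c2, c1]
          · exfalso
            have c3 : χ ≠ b := fun h => hab (c1.symm.trans h)
            rw [if_pos c1, if_neg c3, if_neg c2] at h1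
            split_ifs at h1 <;> norm_num at h1
        · by_cases c2 : χ = b
          · by_cases c3 : (fun g => σ (χ g)) = b
            · rw [c3, c2]
            · exfalso
              rw [if_neg c1, if_pos c2, if_neg c3] at h1
              split_ifs at h1 <;> norm_num at h1
          · rw [if_neg c1, if_neg c2, sub_self] at h2
            exact absurd rfl h2
      rw [h3]
    · have hz := (gal_z hT σ θ₀).symm
      obtain ⟨a, ha, b, hb, hab, hδ⟩ := norm_two (del_virt θ₀ (gal σ θ₀))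
        (del_norm hT r₀ (gal_reg r₀) hz hrel) (del_one θ₀ (gal σ θ₀))
      have h1 := hpr θ₀ (gal σ θ₀) r₀ (gal_reg r₀) hz
      have hsm : ∀ u f : G → ℂ, pr (ε • u) f = ε * pr u f := by
        intro u f
        rcases hε with h | h
        · rw [h]; simp
        · rw [h, neg_one_smul, pr_neg]; simp
      have h2 := del_norm hT r₀ (gal_reg (σ := σ) r₀) hz hrel
      rw [pr_sub] at h2
      rw [pr_sub, pr_sub, hsm, hsm] at h1
      have h3 : pr χ (ind T (lc θ₀) - ind T (lc (gal σ θ₀))) -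
          pr (fun g => σ (χ g)) (ind T (lc θ₀) - ind T (lc (gal σ θ₀))) = 2 * ε := by
        linear_combination -h1 + (ε : ℂ) * h2
      rw [hδ, pr_subr, pr_subr, pr_irr hχ ha, pr_irr hχ hb, pr_irr hχ' ha, pr_irr hχ' hb] at h3
      have h4 : χ - (fun g => σ (χ g)) = ε • (ind T (lc θ₀) - ind T (lc (gal σ θ₀))) := by
        rw [hδ]
        rcases hε with h | h
        · rw [h] at h3 ⊢
          rw [one_smul]
          by_cases c1 : χ = a
          · by_cases c2 : (fun g => σ (χ g)) = b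
            · rw [c2, ← c1]
            · exfalso
              have c3 : χ ≠ b := fun h => hab (c1.symm.trans h)
              rw [if_pos c1, if_neg c3, if_neg c2] at h3
              split_ifs at h3 <;> norm_num at h3
          · exfalso
            rw [if_neg c1] at h3
            split_ifs at h3 <;> norm_num at h3
        · rw [h] at h3 ⊢
          rw [neg_one_smul, neg_sub]
          by_cases c1 : χ = b
          · by_cases c2 : (fun g => σ (χ g)) = a
            · rw [c2, ← c1]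
            · exfalso
              have c3 : χ ≠ a := fun h => hab (h.symm.trans c1)
              rw [if_pos c1, if_neg c3, if_neg c2] at h3
              split_ifs at h3 <;> norm_num at h3
          · exfalso
            rw [if_neg c1] at h3
            split_ifs at h3 <;> norm_num at h3
      have h5 : (fun g => σ (χ g)) = χ - ε • (ind T (lc θ₀) - ind T (lc (gal σ θ₀))) := by
        rw [← h4]
        abel
      rw [h5, smul_sub]
      abel
  -- the values are algebraic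
  have hmem : (χ - ε • ind T (lc θ₀)) x ∈ QB := by
    have h1 : χ x ∈ QB := isChar_mem (Pool.Agent.K4H74.SC.isChar_of_mem
      (AddSubmonoid.subset_closure hχ)) x
    have h2 : ind T (lc θ₀) x ∈ QB := isChar_mem
      (Pool.Agent.K4H74.SC.isChar_ind T (IsChar.lc θ₀)) x
    rw [Pi.sub_apply, Pi.smul_apply]
    exact sub_mem h1 (zsmul_mem h2 ε)
  have hbot : (χ - ε • ind T (lc θ₀)) x ∈ (⊥ : IntermediateField ℚ ℂ) := by
    refine mem_of_fixed ⊥ bot_le hmem fun σ _ => ?_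
    have h2 := congrFun (hfix σ) x
    rw [Pi.sub_apply, Pi.sub_apply, Pi.smul_apply, Pi.smul_apply, gal_ind] at h2
    rw [Pi.sub_apply, Pi.smul_apply, map_sub, map_zsmul]
    exact h2
  obtain ⟨q, hq⟩ := IntermediateField.mem_bot.mp hbot
  exact ⟨q, by rw [← hq]; rfl⟩

end Run7.h963.SX
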