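import Pool.Agent.Run7.h963.SX.Rat
import Pool.Agent.Run7.h963.SX.Defs
import Pool.Agent.Run7.h200.SP.Main

/-!
# Special subgroups and tame groups
-/

set_option autoImplicit false
set_option linter.unusedSectionVars false

open Pool.Agent.R389 Pool.Agent.W446.AS Pool.Agent.H541R3.ART
open Pool.Agent.K4H74.ST (IsChar)
open Run7.h200.SP (virt_sub rat_of_pow RatVal regf regf_rat exists_compl isChar_regf isChar_nsmul)

namespace Run7.h963.SX

variable {G : Type} [Group G]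

lemma Special.spec {T : Subgroup G} (h : Special T) : ∃ z, Spec T z := by
  obtain ⟨h1, z, hz, hzz, hc⟩ := h
  by_cases hx : ∃ x, x * z = z * x ∧ x ∉ T
  · exact ⟨z, h1, hz, hzz, hc, Or.inr hx⟩
  · refine ⟨1, h1, one_mem _, one_mul 1, fun t ht t1 _ x hxt => ?_, Or.inl rfl⟩
    by_cases tz : t = z
    · subst tz
      by_contra hcon
      exact hx ⟨x, hxt, hcon⟩
    · exact hc t ht t1 tz x hxt

variable [Finite G]

/-- the irreducible characters of tame groups -/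
lemma Tame.chr (hG : Tame G) {χ : G → ℂ} (hχ : χ ∈ Irr G) {g : G} (hn : ¬ ∃ q : ℚ, χ g = q) :
    ∃ T : Subgroup G, Special T ∧ g ∈ T := by
  refine (hG g).resolve_left fun h => hn ?_
  have h1 : χ ∈ AddSubmonoid.closure (Irr G) := AddSubmonoid.subset_closure hχ
  have h2 : (0 : G → ℂ) ∈ AddSubmonoid.closure (Irr G) := zero_mem _
  obtain ⟨q, hq⟩ := rat_of_pow h1 h2 g (fun k hk => by
    obtain ⟨x, hx⟩ := h k hk
    rw [← hx, Irr.conj hχ]
    rfl)
  exact ⟨q, by rw [← hq]; simp⟩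

lemma virt_zsmul_ind {T : Subgroup G} (ε : ℤ) (θ : T →* ℂˣ) : Virt (ε • ind T (lc θ)) :=
  zsmul_mem (K := AddSubgroup.closure (Irr G)) (virt_lin θ) ε

/-- the form with characters -/
theorem chr_of {χ : G → ℂ} (hχ : χ ∈ Irr G) {T : Subgroup G} {θ : T →* ℂˣ} {ε : ℤ}
    (h4 : RatVal (χ - ε • ind T (lc θ))) :
    ∃ ψ ψ' : G → ℂ, IsChar ψ ∧ IsChar ψ' ∧ RatVal ψ ∧ RatVal ψ' ∧
      χ + ψ = ψ' + ε • ind T (lc θ) := by
  have hv : Virt (χ - ε • ind T (lc θ)) := sub_mem (S := AddSubgroup (G → ℂ))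
    (AddSubgroup.subset_closure hχ : Virt χ) (virt_zsmul_ind ε θ)
  obtain ⟨χ₁, i1, χ₂, i2, he⟩ := virt_sub hv
  obtain ⟨m, hm⟩ := exists_compl i2
  have hc1 : IsChar χ₁ := Pool.Agent.K4H74.SC.isChar_of_mem i1
  refine ⟨m • regf G, χ₁ + (m • regf G - χ₂), isChar_nsmul isChar_regf m,
    hc1.add hm, fun g => regf_rat m g, fun g => ?_, ?_⟩
  · obtain ⟨q, h⟩ := h4 g
    obtain ⟨q', h'⟩ := regf_rat (G := G) m g
    refine ⟨q + q', ?_⟩
    rw [he, Pi.sub_apply] at h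
    rw [Pi.add_apply, Pi.sub_apply, h']
    push_cast
    rw [← h]
    ring
  · have h5 : χ = (χ₁ - χ₂) + ε • ind T (lc θ) := by rw [← he, sub_add_cancel]
    rw [h5]
    abel

end Run7.h963.SX
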