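import Pool.Agent.Run7.h963.SX.N2

/-!
# Abelian subgroups which contain the centralizers of their elements: induced characters
-/

set_option autoImplicit false
set_option linter.unusedSectionVars false

open Pool.Agent.R389 Pool.Agent.W446.AS Pool.Agent.H541R3.ART

namespace Run7.h963.SX

variable {G : Type} [Group G]

/-- `T` is abelian, and contains the centralizers of its elements with the exception of `1` and
perhaps of one involution `z` -/
structure Spec (T : Subgroup G) (z : G) : Prop where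
  comm : ∀ x ∈ T, ∀ y ∈ T, x * y = y * x
  mem : z ∈ T
  sq : z * z = 1
  cent : ∀ t ∈ T, t ≠ 1 → t ≠ z → ∀ x, x * t = t * x → x ∈ T
  fix : z = 1 ∨ ∃ x, x * z = z * x ∧ x ∉ T

/-- the linear character extended by zero -/
noncomputable def E (T : Subgroup G) (η : T →* ℂˣ) (g : G) : ℂ := ext T (lc η) g

/-- `η ^ x = θ` -/
def Rel (T : Subgroup G) (η θ : T →* ℂˣ) (x : G) : Prop :=
  ∀ s ∈ T, E T η (x⁻¹ * s * x) = E T θ s

variable {T : Subgroup G} {z : G}

lemma E_mem (η : T →* ℂˣ) {g : G} (h : g ∈ T) : E T η g = ((η ⟨g, h⟩ : ℂˣ) : ℂ) := by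
  rw [E, ext_mem _ _ h]

lemma E_not (η : T →* ℂˣ) {g : G} (h : g ∉ T) : E T η g = 0 := by
  rw [E, ext_not _ _ h]

lemma E_ne (η : T →* ℂˣ) {g : G} (h : g ∈ T) : E T η g ≠ 0 := by
  rw [E_mem η h]
  exact (η _).ne_zero

lemma Rel.mem {η θ : T →* ℂˣ} {x : G} (h : Rel T η θ x) {s : G} (hs : s ∈ T) :
    x⁻¹ * s * x ∈ T := by
  by_contra hc
  exact E_ne θ hs (by rw [← h s hs, E_not η hc])

lemma Rel.eq {η θ : T →* ℂˣ} {x : G} (h : Rel T η θ x) {s : G} (hs : s ∈ T) :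
    η ⟨x⁻¹ * s * x, h.mem hs⟩ = θ ⟨s, hs⟩ := by
  have h1 := h s hs
  rw [E_mem η (h.mem hs), E_mem θ hs] at h1
  exact Units.ext h1

lemma rel_of {η θ : T →* ℂˣ} {x : G} (h : ∀ s (hs : s ∈ T), ∃ h' : x⁻¹ * s * x ∈ T,
    η ⟨x⁻¹ * s * x, h'⟩ = θ ⟨s, hs⟩) : Rel T η θ x := by
  intro s hs
  obtain ⟨h', h1⟩ := h s hs
  rw [E_mem η h', E_mem θ hs, h1]

section fin

variable [Finite G]

lemma surj_of {x : G} (h : ∀ s ∈ T, x⁻¹ * s * x ∈ T) {s : G} (hs : s ∈ T) : x * s * x⁻¹ ∈ T := by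
  let f : T → T := fun s => ⟨x⁻¹ * s * x, h s s.2⟩
  have hf : Function.Injective f := by
    intro a b hab
    have h1 : x⁻¹ * (a : G) * x = x⁻¹ * b * x := congrArg Subtype.val hab
    apply Subtype.ext
    simpa using h1
  obtain ⟨⟨a, ha⟩, hab⟩ := (Finite.injective_iff_surjective.mp hf) ⟨s, hs⟩
  have h1 : x⁻¹ * a * x = s := congrArg Subtype.val hab
  have h2 : x * s * x⁻¹ = a := by rw [← h1]; group
  rw [h2]
  exact ha

lemma Rel.mem' {η θ : T →* ℂˣ} {x : G} (h : Rel T η θ x) {s : G} (hs : s ∈ T) :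
    x * s * x⁻¹ ∈ T := surj_of (fun _ hs => h.mem hs) hs

lemma Rel.symm {η θ : T →* ℂˣ} {x : G} (h : Rel T η θ x) : Rel T θ η x⁻¹ := by
  refine rel_of fun s hs => ?_
  have h1 := h.mem' hs
  have h2 : x⁻¹⁻¹ * s * x⁻¹ = x * s * x⁻¹ := by rw [inv_inv]
  refine ⟨h2 ▸ h1, ?_⟩
  have h3 := h.eq h1
  have h4 : (⟨x⁻¹ * (x * s * x⁻¹) * x, h.mem h1⟩ : T) = ⟨s, hs⟩ := Subtype.ext (by group)
  rw [h4] at h3
  rw [h3]
  congr 1
  exact Subtype.ext h2

lemma Rel.trans {η θ ψ : T →* ℂˣ} {x y : G} (h : Rel T η θ x) (h' : Rel T θ ψ y) :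
    Rel T η ψ (y * x) := by
  refine rel_of fun s hs => ?_
  have h1 := h'.mem hs
  have h2 := h.mem h1
  have h3 : (y * x)⁻¹ * s * (y * x) = x⁻¹ * (y⁻¹ * s * y) * x := by group
  refine ⟨h3 ▸ h2, ?_⟩
  rw [← h'.eq hs, ← h.eq h1]
  congr 1
  exact Subtype.ext h3

lemma Spec.rel_T (hT : Spec T z) (η : T →* ℂˣ) {x : G} (hx : x ∈ T) : Rel T η η x := by
  refine rel_of fun s hs => ?_
  have h1 : x⁻¹ * s * x = s := by
    rw [mul_assoc, hT.comm s hs x hx]
    group
  exact ⟨by rw [h1]; exact hs, by congr 1; exact Subtype.ext h1⟩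

/-- elements which conjugate a good element into `T` normalize `T` -/
lemma Spec.norm (hT : Spec T z) {t x : G} (ht : t ∈ T) (h1 : t ≠ 1) (h2 : t ≠ z)
    (hx : x⁻¹ * t * x ∈ T) {s : G} (hs : s ∈ T) : x⁻¹ * s * x ∈ T := by
  have key : ∀ u ∈ T, x * u * x⁻¹ ∈ T := by
    intro u hu
    refine hT.cent t ht h1 h2 _ ?_
    have h3 := hT.comm u hu _ hx
    have h4 : x * u * x⁻¹ * t = x * (u * (x⁻¹ * t * x)) * x⁻¹ := by group
    have h5 : t * (x * u * x⁻¹) = x * ((x⁻¹ * t * x) * u) * x⁻¹ := by group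
    rw [h4, h5, h3]
  have h3 := surj_of (x := x⁻¹) (T := T) (fun u hu => by rw [inv_inv]; exact key u hu) hs
  rwa [inv_inv] at h3

/-- `z` is fixed by the normalizer -/
lemma Spec.z_fix (hT : Spec T z) {x : G} (hx : ∀ s ∈ T, x⁻¹ * s * x ∈ T) : x⁻¹ * z * x = z := by
  rcases hT.fix with h | ⟨y, hy, hyT⟩
  · rw [h]; group
  by_contra hc
  apply hyT
  have h1 : x⁻¹ * z * x ≠ 1 := by
    intro h
    have h3 : z = 1 := by
      have : z = x * (x⁻¹ * z * x) * x⁻¹ := by group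
      rw [this, h]; group
    rw [h3] at hc
    exact hc (by group)
  have h2 := hT.cent _ (hx z hT.mem) h1 hc (x⁻¹ * y * x) (by
    have h4 : x⁻¹ * y * x * (x⁻¹ * z * x) = x⁻¹ * (y * z) * x := by group
    rw [h4, hy]
    group)
  have h3 := surj_of hx h2
  have h4 : x * (x⁻¹ * y * x) * x⁻¹ = y := by group
  rwa [h4] at h3

lemma Rel.zeq (hT : Spec T z) {η θ : T →* ℂˣ} {x : G} (h : Rel T η θ x) :
    η ⟨z, hT.mem⟩ = θ ⟨z, hT.mem⟩ := by
  have h1 := h.eq hT.mem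
  rw [← h1]
  congr 1
  exact Subtype.ext (hT.z_fix fun _ hs => h.mem hs).symm

/-- `θ` is regular: it is not fixed by the elements of the normalizer outside of `T` -/
def Reg (T : Subgroup G) (θ : T →* ℂˣ) : Prop := ∀ x, Rel T θ θ x → x ∈ T

open Classical in
/-- one, if `θ` is a conjugate of `η` -/
noncomputable def cj (T : Subgroup G) (η θ : T →* ℂˣ) : ℤ := if ∃ x, Rel T η θ x then 1 else 0

lemma cj_self (hT : Spec T z) (η : T →* ℂˣ) : cj T η η = 1 :=
  if_pos ⟨1, hT.rel_T η (one_mem _)⟩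

lemma cj_pos {η θ : T →* ℂˣ} {x : G} (h : Rel T η θ x) : cj T η θ = 1 := if_pos ⟨x, h⟩

lemma cj_neg {η θ : T →* ℂˣ} (h : ¬ ∃ x, Rel T η θ x) : cj T η θ = 0 := if_neg h

open Classical in
lemma card_rel [Fintype G] (hT : Spec T z) {η : T →* ℂˣ} (hη : Reg T η) (θ : T →* ℂˣ) :
    ∑ x : G, (if Rel T η θ x then (1 : ℂ) else 0) = Nat.card T * cj T η θ := by
  classical
  by_cases h : ∃ y, Rel T η θ y
  · obtain ⟨y, hy⟩ := h
    rw [cj_pos hy]
    have h1 : ∀ x : G, (if Rel T η θ x then (1 : ℂ) else 0) = if y⁻¹ * x ∈ T then 1 else 0 := by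
      intro x
      refine if_congr ⟨fun hx => ?_, fun hx => ?_⟩ rfl rfl
      · exact hη _ (Rel.trans hx hy.symm)
      · have h2 := Rel.trans (hT.rel_T η hx) hy
        rwa [mul_inv_cancel_left] at h2
    rw [Finset.sum_congr rfl fun x _ => h1 x]
    rw [← Equiv.sum_comp (Equiv.mulLeft y) (fun x => if y⁻¹ * x ∈ T then (1 : ℂ) else 0)]
    simp only [Equiv.coe_mulLeft, inv_mul_cancel_left]
    rw [Finset.sum_boole, Int.cast_one, mul_one, Nat.card_eq_fintype_card, Fintype.card_subtype]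
  · rw [cj_neg h, Finset.sum_eq_zero]
    · simp
    · intro x _
      rw [if_neg fun hx => h ⟨x, hx⟩]

lemma sum_T [Fintype G] [Fintype T] (F : G → ℂ) (hF : ∀ g, g ∉ T → F g = 0) :
    ∑ g, F g = ∑ t : T, F t := by
  classical
  rw [← Finset.sum_subtype (Finset.univ.filter fun g => g ∈ T) (by simp) F, Finset.sum_filter]
  refine Finset.sum_congr rfl fun g _ => ?_
  by_cases h : g ∈ T
  · rw [if_pos h]
  · rw [if_neg h, hF g h]

/-- **Mackey's formula.** -/
theorem Spec.mackey (hT : Spec T z) {θ θ' η : T →* ℂˣ} (hη : Reg T η)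
    (h : θ ⟨z, hT.mem⟩ = θ' ⟨z, hT.mem⟩) :
    pr (ind T (lc θ) - ind T (lc θ')) (ind T (lc η)) = ((cj T η θ - cj T η θ' : ℤ) : ℂ) := by
  classical
  have : Fintype G := Fintype.ofFinite G
  have : Fintype T := Fintype.ofFinite T
  have hc : (Nat.card T : ℂ) ≠ 0 := card_ne
  have h1 : pr (ind T (lc θ) - ind T (lc θ')) (ind T (lc η)) =
      (Nat.card T : ℂ)⁻¹ * (Nat.card T : ℂ)⁻¹ *
        ∑ x : G, ∑ t : T, (lc θ t - lc θ' t) * E T η (x⁻¹ * (t : G)⁻¹ * x) := by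
    have e1 : ind T (lc θ) - ind T (lc θ') = ind T (lc θ - lc θ') := (ind_sub _ _ _).symm
    rw [e1, frob T _ (fun g x => ind_class T _ g x), pr_eq, mul_assoc]
    congr 1
    rw [Finset.sum_comm, Finset.mul_sum]
    refine Finset.sum_congr rfl fun t _ => ?_
    rw [Pi.sub_apply, ind_eq, Finset.mul_sum, Finset.mul_sum, Finset.mul_sum]
    refine Finset.sum_congr rfl fun x _ => ?_
    rw [Subgroup.coe_inv, E]
    ring
  have h2 : ∀ x : G, ∑ t : T, (lc θ t - lc θ' t) * E T η (x⁻¹ * (t : G)⁻¹ * x) =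
      Nat.card T * ((if Rel T η θ x then (1 : ℂ) else 0) - (if Rel T η θ' x then 1 else 0)) := by
    intro x
    by_cases hx : ∀ s ∈ T, x⁻¹ * s * x ∈ T
    · -- `x` normalizes `T`
      let ηx : T →* ℂˣ :=
        { toFun := fun s => η ⟨x⁻¹ * s * x, hx s s.2⟩
          map_one' := by
            have : (⟨x⁻¹ * ((1 : T) : G) * x, hx _ (1 : T).2⟩ : T) = 1 :=
              Subtype.ext (by simp)
            rw [this, map_one]
          map_mul' := by
            intro a b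
            rw [← map_mul]
            congr 1
            apply Subtype.ext
            simp only [Subgroup.coe_mul]
            group }
      have e1 : ∀ t : T, E T η (x⁻¹ * (t : G)⁻¹ * x) = lc ηx t⁻¹ := by
        intro t
        rw [E_mem η (hx _ (T.inv_mem t.2))]
        rfl
      have e2 : ∀ ψ : T →* ℂˣ, Rel T η ψ x ↔ ψ = ηx := by
        intro ψ
        constructor
        · intro h
          ext s
          rw [← h.eq s.2]
          rfl
        · rintro rfl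
          exact rel_of fun s hs => ⟨hx s hs, rfl⟩
      have e3 := sum_eq_pr (lc θ - lc θ') (lc ηx)
      have e4 : ∑ t : T, (lc θ t - lc θ' t) * E T η (x⁻¹ * (t : G)⁻¹ * x) =
          ∑ t : T, (lc θ - lc θ') t * lc ηx t⁻¹ :=
        Finset.sum_congr rfl fun t _ => by rw [e1, Pi.sub_apply]
      rw [e4, e3, pr_sub, pr_lin, pr_lin, mul_comm]
      simp only [e2]
      congr
    · have e1 : ∀ ψ : T →* ℂˣ, ¬ Rel T η ψ x := fun ψ h => hx fun s hs => h.mem hs
      rw [if_neg (e1 _), if_neg (e1 _), sub_self, mul_zero]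
      refine Finset.sum_eq_zero fun t _ => ?_
      by_cases t1 : t = 1
      · rw [t1]
        change (((θ 1 : ℂˣ) : ℂ) - ((θ' 1 : ℂˣ) : ℂ)) * _ = 0
        rw [map_one, map_one, sub_self, zero_mul]
      by_cases t2 : t = ⟨z, hT.mem⟩
      · rw [t2]
        change (((θ ⟨z, hT.mem⟩ : ℂˣ) : ℂ) - ((θ' ⟨z, hT.mem⟩ : ℂˣ) : ℂ)) * _ = 0
        rw [h, sub_self, zero_mul]
      rw [E_not, mul_zero]
      intro h3
      apply hx
      intro s hs
      refine hT.norm (t := (t : G)) t.2 (fun h => t1 (Subtype.ext h))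
        (fun h => t2 (Subtype.ext h)) ?_ hs
      have h4 := T.inv_mem h3
      have h5 : (x⁻¹ * (t : G)⁻¹ * x)⁻¹ = x⁻¹ * t * x := by group
      rwa [h5] at h4
  rw [h1, Finset.sum_congr rfl fun x _ => h2 x, ← Finset.mul_sum, Finset.sum_sub_distrib,
    card_rel hT hη, card_rel hT hη]
  push_cast
  field_simp

end fin

end Run7.h963.SX
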