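import Pool.Agent.R389.Quat
import Pool.Agent.R389.Two

/-!
# Virtual characters of norm two, and the characters of abelian groups
-/

set_option autoImplicit false
set_option linter.unusedSectionVars false

open Pool.Agent.R389 Pool.Agent.W446.AS Pool.Agent.H541R3.ART

namespace Run7.h963.SX

variable {G : Type} [Group G] [Finite G]

lemma pr_subr (a b χ : G → ℂ) : pr χ (a - b) = pr χ a - pr χ b := by
  rw [pr_comm, pr_sub, pr_comm a, pr_comm b]

open Classical in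
lemma pr_irr {χ χ' : G → ℂ} (hχ : χ ∈ Irr G) (hχ' : χ' ∈ Irr G) :
    pr χ χ' = if χ = χ' then 1 else 0 := by
  by_cases h : χ = χ'
  · rw [if_pos h, ← h, pr_self hχ]
  · rw [if_neg h, pr_ne hχ hχ' h]

/-- virtual characters of norm two and degree zero -/
lemma norm_two {f : G → ℂ} (hf : Virt f) (hn : pr f f = 2) (h0 : f 1 = 0) :
    ∃ χ₁ ∈ Irr G, ∃ χ₂ ∈ Irr G, χ₁ ≠ χ₂ ∧ f = χ₁ - χ₂ := by
  classical
  have h1 : ((∑ χ ∈ irrF G, mult f χ ^ 2 : ℤ) : ℂ) = 2 := by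
    have h2 := pr_expand (F := f) hf.conj
    rw [hn] at h2
    rw [h2]
    push_cast
    exact Finset.sum_congr rfl fun χ hχ => by rw [mult_spec hf (mem_irrF.mp hχ), pow_two]
  have h2 : ∑ χ ∈ irrF G, mult f χ ^ 2 = 2 := by exact_mod_cast h1
  have hone : ∀ m : ℤ, m ≠ 0 → m ^ 2 ≤ 2 → m = 1 ∨ m = -1 := by
    intro m hm h
    have h3 : m ≤ 1 := by nlinarith
    have h4 : -1 ≤ m := by nlinarith
    omega
  obtain ⟨χ, hχ, hχ0⟩ : ∃ χ ∈ irrF G, mult f χ ≠ 0 := by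
    by_contra hcon
    push Not at hcon
    rw [Finset.sum_eq_zero (fun χ hχ => by rw [hcon χ hχ]; norm_num)] at h2
    omega
  have h3 := Finset.add_sum_erase (irrF G) (fun χ => mult f χ ^ 2) hχ
  rw [h2] at h3
  have h4 : 0 ≤ ∑ χ' ∈ (irrF G).erase χ, mult f χ' ^ 2 :=
    Finset.sum_nonneg fun χ' _ => sq_nonneg _
  have h5 := hone _ hχ0 (by omega)
  have h6 : mult f χ ^ 2 = 1 := by rcases h5 with h | h <;> rw [h] <;> norm_num
  have h7 : ∑ χ' ∈ (irrF G).erase χ, mult f χ' ^ 2 = 1 := by omega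
  obtain ⟨χ', hχ', hχ0'⟩ : ∃ χ' ∈ (irrF G).erase χ, mult f χ' ≠ 0 := by
    by_contra hcon
    push Not at hcon
    rw [Finset.sum_eq_zero (fun χ hχ => by rw [hcon χ hχ]; norm_num)] at h7
    omega
  have h8 := Finset.add_sum_erase ((irrF G).erase χ) (fun χ => mult f χ ^ 2) hχ'
  rw [h7] at h8
  have h9 : 0 ≤ ∑ χ'' ∈ ((irrF G).erase χ).erase χ', mult f χ'' ^ 2 :=
    Finset.sum_nonneg fun χ' _ => sq_nonneg _
  have h10 := hone _ hχ0' (by omega)
  have h11 : mult f χ' ^ 2 = 1 := by rcases h10 with h | h <;> rw [h] <;> norm_num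
  have h12 : ∑ χ'' ∈ ((irrF G).erase χ).erase χ', mult f χ'' ^ 2 = 0 := by omega
  have h13 := (Finset.sum_eq_zero_iff_of_nonneg (fun χ' _ => sq_nonneg _)).mp h12
  have i1 := mem_irrF.mp hχ
  have i2 := mem_irrF.mp (Finset.mem_of_mem_erase hχ')
  have hne : χ' ≠ χ := Finset.ne_of_mem_erase hχ'
  have h14 : ∀ g, f g = (mult f χ : ℂ) * χ g + (mult f χ' : ℂ) * χ' g := by
    intro g
    rw [class_expand hf.conj g, ← Finset.add_sum_erase _ _ hχ, ← Finset.add_sum_erase _ _ hχ',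
      mult_spec hf i1, mult_spec hf i2, Finset.sum_eq_zero, add_zero]
    intro χ'' hχ''
    have h10 : mult f χ'' = 0 := by
      have := h13 χ'' hχ''
      exact pow_eq_zero_iff two_ne_zero |>.mp this
    rw [mult_spec hf (mem_irrF.mp (Finset.mem_of_mem_erase (Finset.mem_of_mem_erase hχ''))), h10]
    simp
  obtain ⟨d, hd, hd1⟩ := irr_deg_pos i1
  obtain ⟨e, he, he1⟩ := irr_deg_pos i2
  have h15 := h14 1
  rw [h0, hd1, he1] at h15
  have h16 : (0 : ℤ) = mult f χ * d + mult f χ' * e := by exact_mod_cast h15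
  rcases h5 with a | a <;> rcases h10 with b | b <;> rw [a, b] at h16 h14
  · omega
  · exact ⟨χ, i1, χ', i2, hne.symm, funext fun g => by rw [h14 g]; simp [sub_eq_add_neg]⟩
  · exact ⟨χ', i2, χ, i1, hne, funext fun g => by rw [h14 g]; simp [sub_eq_add_neg, add_comm]⟩
  · omega

lemma pr_cases {f : G → ℂ} (hf : Virt f) (hn : pr f f = 2) (h0 : f 1 = 0) {χ : G → ℂ}
    (hχ : χ ∈ Irr G) : pr f χ = 0 ∨ pr f χ = 1 ∨ pr f χ = -1 := by
  classical
  obtain ⟨a, ha, b, hb, hab, rfl⟩ := norm_two hf hn h0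
  rw [pr_sub, pr_irr ha hχ, pr_irr hb hχ]
  split_ifs <;> simp

lemma pr_two_ne {f f' : G → ℂ} (hf : Virt f) (hn : pr f f = 2) (h0 : f 1 = 0) (hf' : Virt f')
    (hn' : pr f' f' = 2) (h0' : f' 1 = 0) {χ : G → ℂ} (hχ : χ ∈ Irr G) (h : pr f χ ≠ 0)
    (h' : pr f' χ ≠ 0) : pr f f' ≠ 0 := by
  classical
  obtain ⟨a, ha, b, hb, hab, rfl⟩ := norm_two hf hn h0
  obtain ⟨c, hc, d, hd, hcd, rfl⟩ := norm_two hf' hn' h0'
  rw [pr_sub, pr_irr ha hχ, pr_irr hb hχ] at h
  rw [pr_sub, pr_irr hc hχ, pr_irr hd hχ] at h'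
  rw [pr_sub, pr_subr, pr_subr, pr_irr ha hc, pr_irr ha hd, pr_irr hb hc, pr_irr hb hd]
  by_cases h1 : a = χ
  · subst h1
    by_cases h2 : c = a
    · subst h2
      rw [if_pos rfl, if_neg hcd, if_neg hab.symm]
      split_ifs <;> norm_num
    · by_cases h3 : d = a
      · subst h3
        rw [if_neg (Ne.symm h2), if_pos rfl, if_neg hab.symm]
        split_ifs <;> norm_num
      · rw [if_neg h2, if_neg h3] at h'
        exact absurd (sub_self _) h'
  · by_cases h4 : b = χ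
    · subst h4
      by_cases h2 : c = b
      · subst h2
        rw [if_neg hab, if_pos rfl, if_neg hcd]
        split_ifs <;> norm_num
      · by_cases h3 : d = b
        · subst h3
          rw [if_neg hab, if_neg hcd.symm, if_pos rfl]
          split_ifs <;> norm_num
        · rw [if_neg h2, if_neg h3] at h'
          exact absurd (sub_self _) h'
    · rw [if_neg h1, if_neg h4] at h
      exact absurd (sub_self _) h

/-- the irreducible characters of abelian groups -/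
lemma irr_abel (hc : ∀ x y : G, x * y = y * x) {χ : G → ℂ} (hχ : χ ∈ Irr G) :
    ∃ θ : G →* ℂˣ, χ = lc θ := by
  classical
  have : Fintype G := Fintype.ofFinite G
  obtain ⟨ω, hω⟩ := irr_central hχ (Z := ⊤) (fun x _ => Subgroup.mem_center_iff.mpr fun g => hc g x)
  obtain ⟨d, hd, hd1⟩ := irr_deg_pos hχ
  have h1 : ∀ g, χ g = ((ω ⟨g, Subgroup.mem_top g⟩ : ℂˣ) : ℂ) * d := by
    intro g
    have := hω 1 ⟨g, Subgroup.mem_top g⟩
    rw [one_mul, hd1] at this
    exact this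
  have h2 : ∀ g, χ g * χ g⁻¹ = (d : ℂ) ^ 2 := by
    intro g
    rw [h1 g, h1 g⁻¹]
    have h3 : ω ⟨g⁻¹, Subgroup.mem_top _⟩ = (ω ⟨g, Subgroup.mem_top g⟩)⁻¹ := by
      rw [← map_inv]
      rfl
    rw [h3, Units.val_inv_eq_inv_val]
    have := (ω ⟨g, Subgroup.mem_top g⟩).ne_zero
    field_simp
  have h3 := pr_self hχ
  rw [pr_eq, Finset.sum_congr rfl fun g _ => h2 g, Finset.sum_const, Finset.card_univ, nsmul_eq_mul,
    ← Nat.card_eq_fintype_card, ← mul_assoc, inv_mul_cancel₀ card_ne, one_mul] at h3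
  have h4 : d ^ 2 = 1 := by exact_mod_cast h3
  have h5 : d = 1 := by nlinarith
  obtain ⟨θ, hθ⟩ := irr_deg_one hχ (by rw [hd1, h5]; simp)
  exact ⟨θ, funext hθ⟩

end Run7.h963.SX
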