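import Pool.Agent.Run7.h963.SX.Exc

/-!
# Rationality on the abelian subgroups
-/

set_option autoImplicit false
set_option linter.unusedSectionVars false

open Pool.Agent.R389 Pool.Agent.W446.AS Pool.Agent.H541R3.ART

namespace Run7.h963.SX

variable {G : Type} [Group G] [Finite G] {T : Subgroup G} {z : G}

/-- lifting of exponents -/
lemma exists_lift {n N : ℕ} (hn : n ∣ N) (hN : N ≠ 0) {k : ℕ} (hk : k.Coprime n) :
    ∃ k' : ℕ, k'.Coprime N ∧ k' ≡ k [MOD n] := by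
  have : NeZero N := ⟨hN⟩
  obtain ⟨v, hv⟩ := ZMod.unitsMap_surjective hn (ZMod.unitOfCoprime k hk)
  refine ⟨(v : ZMod N).val, ZMod.val_coe_unit_coprime v, ?_⟩
  rw [← ZMod.natCast_eq_natCast_iff]
  have h1 := congrArg (fun u : (ZMod n)ˣ => (u : ZMod n)) hv
  simp only [ZMod.unitsMap_def, Units.coe_map, ZMod.coe_unitOfCoprime] at h1
  rw [← h1]
  simp [ZMod.castHom_apply, ZMod.natCast_val]

lemma exists_inv {k N : ℕ} (hN : N ≠ 0) (hk : k.Coprime N) :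
    ∃ l : ℕ, l.Coprime N ∧ k * l ≡ 1 [MOD N] := by
  have : NeZero N := ⟨hN⟩
  let v := (ZMod.unitOfCoprime k hk)⁻¹
  refine ⟨(v : ZMod N).val, ZMod.val_coe_unit_coprime v, ?_⟩
  rw [← ZMod.natCast_eq_natCast_iff]
  push_cast
  rw [ZMod.natCast_val, ZMod.cast_id, ← ZMod.coe_unitOfCoprime k hk, ← Units.val_mul,
    mul_inv_cancel, Units.val_one]

lemma pow_eq_of_mod {H : Type} [Group H] [Finite H] (a : H) {k l : ℕ}
    (h : k ≡ l [MOD Nat.card H]) : a ^ k = a ^ l :=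
  pow_eq_pow_iff_modEq.mpr (h.of_dvd (orderOf_dvd_natCard a))

/-- **Rationality.** -/
theorem rat_on (hT : Spec T z) {f : G → ℂ} (hf : Virt f) (h : ¬ Exc T ⟨z, hT.mem⟩ f)
    {t : G} (ht : t ∈ T) {k : ℕ} (hk : k.Coprime (orderOf t)) : f (t ^ k) = f t := by
  classical
  have : Fintype G := Fintype.ofFinite G
  have : Fintype T := Fintype.ofFinite T
  have hN : Nat.card T ≠ 0 := Nat.card_pos.ne'
  have hcm : ∀ x y : T, x * y = y * x := fun x y => Subtype.ext (hT.comm x x.2 y y.2)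
  have hM : ∀ θ θ' : T →* ℂˣ, Reg T θ → Reg T θ' → θ ⟨z, hT.mem⟩ = θ' ⟨z, hT.mem⟩ →
      pr f (ind T (lc θ)) = pr f (ind T (lc θ')) := by
    intro θ θ' r r' hz
    by_contra hcon
    exact h ⟨θ, θ', r, r', hz, hcon⟩
  obtain ⟨k', hk', hkk⟩ := exists_lift (T.orderOf_dvd_natCard ht) hN hk
  obtain ⟨l, hl, hkl⟩ := exists_inv hN hk'
  have hpow : ∀ s : T, s ^ (k' * l) = s := fun s => by
    rw [pow_eq_of_mod s hkl, pow_one]
  have hpowc : ∀ (θ : T →* ℂˣ) (s : T), θ s ^ (k' * l) = θ s := fun θ s => by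
    rw [← map_pow, hpow]
  have hzz : ((⟨z, hT.mem⟩ : T)) * ⟨z, hT.mem⟩ = 1 := Subtype.ext hT.sq
  let D : T → ℂ := fun s => f ((s ^ k' : T) : G) - f s
  -- the multiplicities
  have hD : ∀ θ : T →* ℂˣ, pr D (lc θ) = pr f (ind T (lc (θ ^ l))) - pr f (ind T (lc θ)) := by
    intro θ
    rw [frob' T _ hf.conj, frob' T _ hf.conj]
    have e1 : D = (fun s : T => f ((s ^ k' : T) : G)) - fun s : T => f s := rfl
    rw [e1, pr_sub]
    congr 1
    rw [pr_eq, pr_eq]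
    congr 1
    rw [← Equiv.sum_comp (powCoprime (G := T) hk'.symm) (fun s : T => f s * lc (θ ^ l) s⁻¹)]
    refine Finset.sum_congr rfl fun s _ => ?_
    rw [powCoprime_apply]
    congr 1
    change ((θ s⁻¹ : ℂˣ) : ℂ) = (((θ ^ l) (s ^ k')⁻¹ : ℂˣ) : ℂ)
    congr 1
    rw [MonoidHom.pow_apply, ← map_pow, inv_pow, ← pow_mul, hpow]
  have hnr : ∀ θ : T →* ℂˣ, ¬ Reg T θ → pr D (lc θ) = 0 := by
    intro θ hθ
    have e1 : θ ^ l = θ := by
      ext s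
      rw [MonoidHom.pow_apply]
      congr 1
      rw [← map_pow]
      rcases Nat.even_or_odd l with ⟨j, hj⟩ | ⟨j, hj⟩
      · -- then the order of `T` is odd
        have h2 : θ s = 1 := by
          have h3 : orderOf (θ s) ∣ 2 := orderOf_dvd_of_pow_eq_one (hT.sq_of_not_reg hθ s)
          have h4 : orderOf (θ s) ∣ Nat.card T := orderOf_dvd_of_pow_eq_one (by
            rw [← map_pow, pow_card_eq_one', map_one])
          have h5 : orderOf (θ s) ∣ l := h3.trans ⟨j, by omega⟩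
          exact orderOf_eq_one_iff.mp (Nat.eq_one_of_dvd_coprimes hl h5 h4)
        rw [map_pow, h2, one_pow]
      · rw [map_pow, hj, pow_succ, pow_mul, hT.sq_of_not_reg hθ s, one_pow, one_mul]
    rw [hD, e1, sub_self]
  have hreg : ∀ θ : T →* ℂˣ, Reg T θ → Reg T (θ ^ l) := by
    intro θ hθ x hx
    refine hθ x (rel_of fun s hs => ⟨hx.mem hs, ?_⟩)
    have h1 := hx.eq hs
    rw [MonoidHom.pow_apply, MonoidHom.pow_apply] at h1
    rw [← hpowc θ ⟨x⁻¹ * s * x, hx.mem hs⟩, ← hpowc θ ⟨s, hs⟩, mul_comm, pow_mul, pow_mul, h1]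
  have hrr : ∀ θ θ' : T →* ℂˣ, Reg T θ → Reg T θ' → θ ⟨z, hT.mem⟩ = θ' ⟨z, hT.mem⟩ →
      pr D (lc θ) = pr D (lc θ') := by
    intro θ θ' r r' hz
    rw [hD, hD, hM θ θ' r r' hz, hM _ _ (hreg θ r) (hreg θ' r') (by
      rw [MonoidHom.pow_apply, MonoidHom.pow_apply, hz])]
  have hzs : ∀ θ : T →* ℂˣ, ((θ ⟨z, hT.mem⟩ : ℂˣ) : ℂ) = 1 ∨ ((θ ⟨z, hT.mem⟩ : ℂˣ) : ℂ) = -1 := by
    intro θ
    refine mul_self_eq_one_iff.mp ?_
    rw [← Units.val_mul, ← map_mul, hzz, map_one, Units.val_one]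
  have hcl : ∀ g x : T, D (x * g * x⁻¹) = D g := by
    intro g x
    congr 1
    rw [hcm x g, mul_assoc, mul_inv_cancel, mul_one]
  have hD1 : D 1 = 0 := by
    change f ((1 ^ k' : T) : G) - f ((1 : T) : G) = 0
    rw [one_pow, sub_self]
  have hDz : D ⟨z, hT.mem⟩ = 0 := by
    change f (((⟨z, hT.mem⟩ : T) ^ k' : T) : G) - f ((⟨z, hT.mem⟩ : T) : G) = 0
    rw [pow_of_sq hzz hk', sub_self]
  -- the regular ones
  have hr0 : ∀ θ₀ : T →* ℂˣ, Reg T θ₀ → pr D (lc θ₀) = 0 := by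
    intro θ₀ r₀
    have h1 : ∀ χ ∈ Irr T, ∃ w : ℕ, pr D χ * (1 + ((θ₀ ⟨z, hT.mem⟩ : ℂˣ) : ℂ) * χ ⟨z, hT.mem⟩) =
        pr D (lc θ₀) * w ∧ (χ = lc θ₀ → w = 2) := by
      intro χ hχ
      obtain ⟨θ, rfl⟩ := irr_abel hcm hχ
      by_cases hθ : Reg T θ
      · by_cases hz : θ ⟨z, hT.mem⟩ = θ₀ ⟨z, hT.mem⟩
        · refine ⟨2, ?_, fun _ => rfl⟩
          rw [hrr θ θ₀ hθ r₀ hz]
          congr 1
          change 1 + ((θ₀ ⟨z, hT.mem⟩ : ℂˣ) : ℂ) * ((θ ⟨z, hT.mem⟩ : ℂˣ) : ℂ) = _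
          rw [hz]
          rcases hzs θ₀ with e | e <;> rw [e] <;> norm_num
        · refine ⟨0, ?_, fun h => absurd (by rw [lc_inj h]) hz⟩
          have e1 : 1 + ((θ₀ ⟨z, hT.mem⟩ : ℂˣ) : ℂ) * ((θ ⟨z, hT.mem⟩ : ℂˣ) : ℂ) = 0 := by
            rcases hzs θ₀ with e | e <;> rcases hzs θ with e' | e'
            · exact absurd (Units.ext (by rw [e, e'])) hz
            · rw [e, e']; norm_num
            · rw [e, e']; norm_num
            · exact absurd (Units.ext (by rw [e, e'])) hz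
          change _ * (1 + ((θ₀ ⟨z, hT.mem⟩ : ℂˣ) : ℂ) * ((θ ⟨z, hT.mem⟩ : ℂˣ) : ℂ)) = _
          rw [e1]
          simp
      · refine ⟨0, by rw [hnr θ hθ]; simp, fun h => absurd (lc_inj h ▸ r₀) hθ⟩
    choose! w hw hw2 using h1
    have h2 : D 1 + ((θ₀ ⟨z, hT.mem⟩ : ℂˣ) : ℂ) * D ⟨z, hT.mem⟩ =
        ∑ χ ∈ irrF T, pr D χ * (1 + ((θ₀ ⟨z, hT.mem⟩ : ℂˣ) : ℂ) * χ ⟨z, hT.mem⟩) := by
      rw [class_expand hcl 1, class_expand hcl ⟨z, hT.mem⟩, Finset.mul_sum,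
        ← Finset.sum_add_distrib]
      refine Finset.sum_congr rfl fun χ hχ => ?_
      obtain ⟨θ, rfl⟩ := irr_abel hcm (mem_irrF.mp hχ)
      have e1 : lc θ 1 = 1 := by
        change ((θ 1 : ℂˣ) : ℂ) = 1
        rw [map_one, Units.val_one]
      rw [e1]
      ring
    rw [hD1, hDz, mul_zero, add_zero, Finset.sum_congr rfl fun χ hχ => hw χ (mem_irrF.mp hχ),
      ← Finset.mul_sum] at h2
    rcases mul_eq_zero.mp h2.symm with e | e
    · exact e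
    · exfalso
      have h3 : ∑ χ ∈ irrF T, w χ = 0 := by exact_mod_cast e
      have h4 := (Finset.sum_eq_zero_iff.mp h3) _ (mem_irrF.mpr (lin_irr θ₀))
      rw [hw2 _ (lin_irr θ₀) rfl] at h4
      exact absurd h4 (by norm_num)
  have hD0 : D = 0 := by
    refine class_zero hcl fun χ hχ => ?_
    obtain ⟨θ, rfl⟩ := irr_abel hcm hχ
    by_cases hθ : Reg T θ
    · exact hr0 θ hθ
    · exact hnr θ hθ
  have h5 := congrFun hD0 ⟨t, ht⟩
  have h6 : f ((⟨t, ht⟩ ^ k' : T) : G) - f t = 0 := h5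
  have h7 : ((⟨t, ht⟩ ^ k' : T) : G) = t ^ k := by
    rw [Subgroup.coe_pow]
    exact pow_eq_pow_iff_modEq.mpr hkk
  rw [h7] at h6
  exact sub_eq_zero.mp h6

end Run7.h963.SX
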